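import Pool.Agent.H821R2.Example
import Pool.Agent.H821R2.Bivec

/-!
Curvature of the example metric near the origin.
-/

open Bundle Manifold ContDiff VectorField Filter Topology
open scoped Topology

set_option linter.unusedSectionVars false

noncomputable section

namespace Pool.Agent.H821R2

variable {E : Type*} [NormedAddCommGroup E] [InnerProductSpace ℝ E] [FiniteDimensional ℝ E]

variable (D : ExData E)

/-- coordinate curvature -/
def ExData.R (z u v w : E) : E :=
  fderiv ℝ D.Γ z u v w - fderiv ℝ D.Γ z v u w + D.Γ z u (D.Γ z v w) - D.Γ z v (D.Γ z u w)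

theorem ExData.R_zero (u v w : E) : D.R 0 u v w = D.N u v w - D.N v u w := by
  simp [ExData.R, D.Γ_zero, D.fderiv_Γ_zero]

/-- numerator of the sectional curvature -/
def ExData.Q (p : E × E × E) : ℝ := D.G p.1 (D.R p.1 p.2.1 p.2.2 p.2.2) p.2.1

theorem ExData.Q_zero (u v : E) (hu : ip u u = 1) (hv : ip v v = 1) (huv : ip u v = 0) :
    D.Q (0, u, v) = 2 * D.c - 3 * (ip (D.J u) v) ^ 2 := by
  simp only [ExData.Q]
  rw [D.G_zero, D.R_zero, D.N_N]
  simp only [map_smul, map_sub, map_add, smul_apply, sub_apply, add_apply,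
    smul_eq_mul]
  have h1 : ip (D.J v) u = - ip (D.J u) v := by rw [D.skew v u, ip_comm v (D.J u)]
  rw [h1, hu, hv, huv, D.skew_self u]
  ring

theorem ExData.continuousOn_Q : ContinuousOn D.Q {p | 0 < D.lam p.1} := by
  have hopen : IsOpen {z : E | 0 < D.lam z} :=
    isOpen_lt continuous_const D.contDiff_lam.continuous
  have hΓ := D.contDiffOn_Γ (s := {z : E | 0 < D.lam z}) (fun z hz => hz)
  have h1 : ContinuousOn (fderiv ℝ D.Γ) {z : E | 0 < D.lam z} :=
    hΓ.continuousOn_fderiv_of_isOpen hopen (by simp)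
  have h2 : ContinuousOn D.Γ {z : E | 0 < D.lam z} := hΓ.continuousOn
  have h3 : Continuous D.G := D.contDiff_G.continuous
  have hf : ContinuousOn (fun p : E × E × E => p.1) {p | 0 < D.lam p.1} := by fun_prop
  have hm : Set.MapsTo (fun p : E × E × E => p.1) {p | 0 < D.lam p.1} {z : E | 0 < D.lam z} :=
    fun p hp => hp
  have k1 : ContinuousOn (fun p : E × E × E => fderiv ℝ D.Γ p.1) {p | 0 < D.lam p.1} :=
    h1.comp hf hm
  have k2 : ContinuousOn (fun p : E × E × E => D.Γ p.1) {p | 0 < D.lam p.1} :=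
    h2.comp hf hm
  have k3 : ContinuousOn (fun p : E × E × E => D.G p.1) {p | 0 < D.lam p.1} :=
    (h3.comp continuous_fst).continuousOn
  have hu : ContinuousOn (fun p : E × E × E => p.2.1) {p | 0 < D.lam p.1} := by fun_prop
  have hv : ContinuousOn (fun p : E × E × E => p.2.2) {p | 0 < D.lam p.1} := by fun_prop
  unfold ExData.Q ExData.R
  refine (k3.clm_apply ?_).clm_apply hu
  refine ContinuousOn.sub (ContinuousOn.add (ContinuousOn.sub ?_ ?_) ?_) ?_
  · exact ((k1.clm_apply hu).clm_apply hv).clm_apply hv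
  · exact ((k1.clm_apply hv).clm_apply hu).clm_apply hv
  · exact (k2.clm_apply hu).clm_apply ((k2.clm_apply hv).clm_apply hv)
  · exact (k2.clm_apply hv).clm_apply ((k2.clm_apply hu).clm_apply hv)

theorem ExData.near {a b : ℝ} (h0 : ∀ u v : E, ip u u = 1 → ip v v = 1 → ip u v = 0 →
    a < D.Q (0, u, v) ∧ D.Q (0, u, v) < b) :
    ∃ r : ℝ, 0 < r ∧ (∀ z, ‖z‖ < r → 0 < D.lam z) ∧
      ∀ z, ‖z‖ < r → ∀ u v, D.G z u u = 1 → D.G z v v = 1 → D.G z u v = 0 →
        a < D.Q (z, u, v) ∧ D.Q (z, u, v) < b := by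
  have hc := D.hc
  set ρ : ℝ := min 1 (1 / (2 * D.c)) with hρ
  have hρ0 : 0 < ρ := by positivity
  have hρ1 : ρ ≤ 1 := min_le_left _ _
  have hρ2 : ρ ≤ 1 / (2 * D.c) := min_le_right _ _
  have hρ3 : D.c * ρ ^ 2 ≤ 1 / 2 := by
    have : ρ ^ 2 ≤ 1 / (2 * D.c) := by nlinarith
    calc D.c * ρ ^ 2 ≤ D.c * (1 / (2 * D.c)) := mul_le_mul_of_nonneg_left this hc.le
      _ = 1 / 2 := by field_simp
  have hlam : ∀ z, ‖z‖ ≤ ρ → 1 / 2 ≤ D.lam z := by
    intro z hz
    unfold ExData.lam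
    rw [ip_self_eq]
    have : ‖z‖ ^ 2 ≤ ρ ^ 2 := by
      have := norm_nonneg z
      nlinarith
    nlinarith
  set K : Set (E × E × E) := {p | ‖p.1‖ ≤ ρ ∧ D.G p.1 p.2.1 p.2.1 = 1 ∧
    D.G p.1 p.2.2 p.2.2 = 1 ∧ D.G p.1 p.2.1 p.2.2 = 0} with hK
  have k3 : Continuous (fun p : E × E × E => D.G p.1) :=
    D.contDiff_G.continuous.comp continuous_fst
  have hKclosed : IsClosed K := by
    refine IsClosed.inter (isClosed_le (continuous_norm.comp continuous_fst)
      continuous_const) ?_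
    refine IsClosed.inter (isClosed_eq ?_ continuous_const) ?_
    · exact (k3.clm_apply (by fun_prop)).clm_apply (by fun_prop)
    refine IsClosed.inter (isClosed_eq ?_ continuous_const) (isClosed_eq ?_ continuous_const)
    · exact (k3.clm_apply (by fun_prop)).clm_apply (by fun_prop)
    · exact (k3.clm_apply (by fun_prop)).clm_apply (by fun_prop)
  have hbd : ∀ z v : E, ‖z‖ ≤ ρ → D.G z v v = 1 → ‖v‖ ≤ 2 := by
    intro z v hz hv
    have h1 := hlam z hz
    rw [D.G_apply, ip_self_eq] at hv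
    have h2 : 0 ≤ ip (D.J z) v * ip (D.J z) v := mul_self_nonneg _
    have h3 : ‖v‖ ^ 2 ≤ 2 := by
      have := sq_nonneg ‖v‖
      nlinarith
    nlinarith [norm_nonneg v]
  have hKcpt : IsCompact K := by
    apply Metric.isCompact_of_isClosed_isBounded hKclosed
    rw [isBounded_iff_forall_norm_le]
    refine ⟨ρ + 2, ?_⟩
    rintro ⟨z, u, v⟩ ⟨hz, hu, hv, -⟩
    have h1 := hbd z u hz hu
    have h2 := hbd z v hz hv
    simp only [Prod.norm_def]
    refine max_le ?_ (max_le ?_ ?_)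
    · dsimp only at hz
      linarith
    · linarith
    · linarith
  have hKsub : K ⊆ {p | 0 < D.lam p.1} := by
    intro p hp
    have := hlam p.1 hp.1
    change 0 < D.lam p.1
    linarith
  set B : Set (E × E × E) := K ∩ D.Q ⁻¹' (Set.Iic a ∪ Set.Ici b) with hB
  have hBclosed : IsClosed B :=
    (D.continuousOn_Q.mono hKsub).preimage_isClosed_of_isClosed hKclosed
      (isClosed_Iic.union isClosed_Ici)
  have hBcpt : IsCompact B := hKcpt.of_isClosed_subset hBclosed Set.inter_subset_left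
  have key : ∀ r, r ≤ ρ → (∀ p ∈ B, r ≤ ‖p.1‖) → ∀ z, ‖z‖ < r → ∀ u v, D.G z u u = 1 →
      D.G z v v = 1 → D.G z u v = 0 → a < D.Q (z, u, v) ∧ D.Q (z, u, v) < b := by
    intro r hr hrB z hz u v hu hv huv
    by_contra hcon
    have hmem : (z, u, v) ∈ B := by
      refine ⟨⟨(hz.le.trans hr), hu, hv, huv⟩, ?_⟩
      rw [not_and_or, not_lt, not_lt] at hcon
      rcases hcon with h | h
      · exact Or.inl h
      · exact Or.inr h
    have := hrB _ hmem
    dsimp only at this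
    linarith
  rcases B.eq_empty_or_nonempty with hBe | hBne
  · refine ⟨ρ, hρ0, fun z hz => ?_, key ρ le_rfl ?_⟩
    · have := hlam z hz.le
      linarith
    · intro p hp
      rw [hBe] at hp
      exact absurd hp (Set.notMem_empty _)
  · obtain ⟨p0, hp0, hmin⟩ := hBcpt.exists_isMinOn hBne
      (f := fun p : E × E × E => ‖p.1‖) (by fun_prop)
    have hpos : 0 < ‖p0.1‖ := by
      rw [norm_pos_iff]
      intro hz
      obtain ⟨⟨-, hu, hv, huv⟩, hQ⟩ := hp0
      rw [hz, D.G_zero] at hu hv huv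
      have h1 := h0 p0.2.1 p0.2.2 hu hv huv
      have h2 : (0, p0.2.1, p0.2.2) = p0 := by
        rw [← hz]
      rw [h2] at h1
      rcases hQ with h | h
      · have : D.Q p0 ≤ a := h
        linarith [h1.1]
      · have : b ≤ D.Q p0 := h
        linarith [h1.2]
    refine ⟨min ρ ‖p0.1‖, lt_min hρ0 hpos, fun z hz => ?_, key _ (min_le_left _ _) ?_⟩
    · have := hlam z (hz.le.trans (min_le_left _ _))
      linarith
    · intro p hp
      exact (min_le_right _ _).trans (hmin hp)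

/-! ### The skew map -/

section skew

variable {m : ℕ} (w : Fin m ⊕ Fin m → E)

/-- the partial complex structure -/
def Jmap : E →L[ℝ] E :=
  ∑ i : Fin m, ((ip (w (Sum.inl i))).smulRight (w (Sum.inr i)) -
    (ip (w (Sum.inr i))).smulRight (w (Sum.inl i)))

theorem ip_Jmap (x y : E) : ip (Jmap w x) y =
    ∑ i : Fin m, (ip (w (Sum.inl i)) x * ip (w (Sum.inr i)) y -
      ip (w (Sum.inr i)) x * ip (w (Sum.inl i)) y) := by
  simp [Jmap]

theorem Jmap_skew (x y : E) : ip (Jmap w x) y = - ip x (Jmap w y) := by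
  rw [ip_comm x, ip_Jmap, ip_Jmap, ← Finset.sum_neg_distrib]
  refine Finset.sum_congr rfl fun i _ => ?_
  ring

variable {w}

theorem bessel (hw : Orthonormal ℝ w) (x : E) :
    ∑ i : Fin m, (ip (w (Sum.inl i)) x ^ 2 + ip (w (Sum.inr i)) x ^ 2) ≤ ‖x‖ ^ 2 := by
  have h := hw.sum_inner_products_le (x := x) (s := Finset.univ)
  rw [Fintype.sum_sum_type] at h
  rw [Finset.sum_add_distrib]
  simpa [ip_apply] using h

theorem Jmap_sq_le (hw : Orthonormal ℝ w) (x y : E) (hx : ip x x = 1) (hy : ip y y = 1) :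
    ip (Jmap w x) y ^ 2 ≤ 1 := by
  have h1 := bessel hw x
  have h2 := bessel hw y
  rw [ip_self_eq] at hx hy
  rw [hx] at h1
  rw [hy] at h2
  have h3 := Finset.sum_mul_sq_le_sq_mul_sq (Finset.univ : Finset (Fin m ⊕ Fin m))
    (fun k => Sum.elim (fun i => ip (w (Sum.inl i)) x) (fun i => - ip (w (Sum.inr i)) x) k)
    (fun k => Sum.elim (fun i => ip (w (Sum.inr i)) y) (fun i => ip (w (Sum.inl i)) y) k)
  simp only [Fintype.sum_sum_type, Sum.elim_inl, Sum.elim_inr] at h3
  have e1 : ip (Jmap w x) y = ∑ i : Fin m, ip (w (Sum.inl i)) x * ip (w (Sum.inr i)) y +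
      ∑ i : Fin m, - ip (w (Sum.inr i)) x * ip (w (Sum.inl i)) y := by
    rw [ip_Jmap, ← Finset.sum_add_distrib]
    refine Finset.sum_congr rfl fun i _ => ?_
    ring
  rw [e1]
  refine h3.trans ?_
  have e2 : ∑ i : Fin m, ip (w (Sum.inl i)) x ^ 2 + ∑ i : Fin m, (- ip (w (Sum.inr i)) x) ^ 2 ≤ 1 := by
    rw [← Finset.sum_add_distrib]
    simpa using h1
  have e3 : ∑ i : Fin m, ip (w (Sum.inr i)) y ^ 2 + ∑ i : Fin m, (ip (w (Sum.inl i)) y) ^ 2 ≤ 1 := by
    rw [← Finset.sum_add_distrib]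
    simpa [add_comm] using h2
  have e4 : 0 ≤ ∑ i : Fin m, ip (w (Sum.inr i)) y ^ 2 + ∑ i : Fin m, (ip (w (Sum.inl i)) y) ^ 2 := by
    positivity
  calc _ ≤ 1 * (1 : ℝ) := mul_le_mul e2 e3 e4 zero_le_one
    _ = 1 := one_mul 1

theorem Jmap_inl (hw : Orthonormal ℝ w) (i : Fin m) :
    Jmap w (w (Sum.inl i)) = w (Sum.inr i) := by
  have h := orthonormal_iff_ite.1 hw
  simp [Jmap, ip_apply, h]

theorem Jmap_inr (hw : Orthonormal ℝ w) (i : Fin m) :
    Jmap w (w (Sum.inr i)) = - w (Sum.inl i) := by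
  have h := orthonormal_iff_ite.1 hw
  simp [Jmap, ip_apply, h]

/-- the bivector `∑ u_i ∧ v_i` -/
def etaVec (w : Fin m ⊕ Fin m → E) : ⋀[ℝ]^2 E :=
  ∑ i : Fin m, wedge (w (Sum.inl i)) (w (Sum.inr i))

theorem etaVec_ne_zero (hw : Orthonormal ℝ w) (hm : 0 < m) : etaVec w ≠ 0 := by
  intro h
  have h1 : pair (w (Sum.inl ⟨0, hm⟩)) (w (Sum.inr ⟨0, hm⟩)) (etaVec w) = 1 := by
    have h := orthonormal_iff_ite.1 hw
    simp [etaVec, pair_wedge, h]
  rw [h, map_zero] at h1
  exact zero_ne_one h1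

end skew

/-- the example with the optimal constant -/
def exData {m : ℕ} (w : Fin m ⊕ Fin m → E) : ExData E where
  c := (2 * m + 1) / 2
  hc := by positivity
  J := Jmap w
  skew := Jmap_skew w

theorem exData_Q {m : ℕ} {w : Fin m ⊕ Fin m → E} (hw : Orthonormal ℝ w) (u v : E)
    (hu : ip u u = 1) (hv : ip v v = 1) (huv : ip u v = 0) :
    2 * (m : ℝ) - 2 ≤ (exData w).Q (0, u, v) ∧ (exData w).Q (0, u, v) ≤ 2 * m + 1 := by
  rw [ExData.Q_zero _ u v hu hv huv]
  have h1 := Jmap_sq_le hw u v hu hv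
  have h2 : 0 ≤ ip (Jmap w u) v ^ 2 := sq_nonneg _
  have e : (exData w).c = (2 * m + 1) / 2 := rfl
  have e2 : (exData w).J = Jmap w := rfl
  rw [e, e2]
  constructor <;> linarith

theorem exData_sum {m : ℕ} {w : Fin m ⊕ Fin m → E} (hw : Orthonormal ℝ w) :
    ∑ i : Fin m, ∑ j : Fin m, ip ((exData w).R 0 (w (Sum.inl i)) (w (Sum.inr i))
      (w (Sum.inr j))) (w (Sum.inl j)) = 0 := by
  have h := orthonormal_iff_ite.1 hw
  have e : (exData w).c = (2 * m + 1) / 2 := rfl
  have e2 : (exData w).J = Jmap w := rfl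
  have key : ∀ i j : Fin m, ip ((exData w).R 0 (w (Sum.inl i)) (w (Sum.inr i))
      (w (Sum.inr j))) (w (Sum.inl j)) = (if i = j then 2 * (m : ℝ) else 0) - 2 := by
    intro i j
    rw [ExData.R_zero, ExData.N_N, e, e2, Jmap_inl hw, Jmap_inr hw, Jmap_inr hw]
    simp only [map_smul, map_sub, map_add, map_neg, smul_apply, sub_apply, add_apply, neg_apply,
      smul_eq_mul, ip_apply, h]
    by_cases hij : i = j
    · subst hij
      simp
      ring
    · simp [hij]
  simp only [key]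
  simp
  ring

end Pool.Agent.H821R2
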