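import Pool.Agent.H821R2.OneChartCurv

/-!
The metric `(1 - c |z|²) ⟨v, w⟩ + ⟨J z, v⟩ ⟨J z, w⟩` near the origin, its Christoffel symbols and
its curvature at the origin.
-/

open Bundle Manifold ContDiff VectorField Filter Topology
open scoped Topology

set_option linter.unusedSectionVars false

noncomputable section

namespace Pool.Agent.H821R2

variable {E : Type*} [NormedAddCommGroup E] [InnerProductSpace ℝ E] [FiniteDimensional ℝ E]

/-- The inner product as a continuous bilinear map. -/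
def ip : E →L[ℝ] E →L[ℝ] ℝ := (innerSL ℝ (E := E) : E →L[ℝ] E →L[ℝ] ℝ)

theorem ip_apply (v w : E) : ip v w = inner ℝ v w := rfl

theorem ip_comm (v w : E) : ip v w = ip w v := by
  rw [ip_apply, ip_apply, real_inner_comm]

theorem ip_self_nonneg (v : E) : 0 ≤ ip v v := by
  rw [ip_apply]; exact real_inner_self_nonneg

theorem ip_self_eq (v : E) : ip v v = ‖v‖ ^ 2 := by
  rw [ip_apply]; exact real_inner_self_eq_norm_sq v

/-- Data for the example. -/
structure ExData (E : Type*) [NormedAddCommGroup E] [InnerProductSpace ℝ E] where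
  c : ℝ
  hc : 0 < c
  J : E →L[ℝ] E
  skew : ∀ x y, ip (J x) y = - ip x (J y)

variable (D : ExData E)

theorem ExData.skew_self (x : E) : ip (D.J x) x = 0 := by
  have := D.skew x x
  rw [ip_comm x (D.J x)] at this
  linarith

/-- conformal factor -/
def ExData.lam (z : E) : ℝ := 1 - D.c * ip z z

/-- the metric -/
def ExData.G (z : E) : E →L[ℝ] E →L[ℝ] ℝ :=
  D.lam z • ip + (ip (D.J z)).smulRight (ip (D.J z))

theorem ExData.G_apply (z v w : E) :
    D.G z v w = D.lam z * ip v w + ip (D.J z) v * ip (D.J z) w := by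
  simp [ExData.G]

/-- the inverse metric -/
def ExData.Ginv (z : E) : E →L[ℝ] E :=
  (D.lam z)⁻¹ • (ContinuousLinearMap.id ℝ E -
    (D.lam z + ip (D.J z) (D.J z))⁻¹ • (ip (D.J z)).smulRight (D.J z))

theorem ExData.Ginv_apply (z y : E) : D.Ginv z y = (D.lam z)⁻¹ • (y -
    ((D.lam z + ip (D.J z) (D.J z))⁻¹ * ip (D.J z) y) • D.J z) := by
  simp [ExData.Ginv, smul_smul]

theorem ExData.G_Ginv {z : E} (hz : 0 < D.lam z) (y w : E) :
    D.G z (D.Ginv z y) w = ip y w := by
  rw [D.G_apply, D.Ginv_apply]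
  have h1 : D.lam z + ip (D.J z) (D.J z) ≠ 0 := by
    have : 0 ≤ ip (D.J z) (D.J z) := ip_self_nonneg _
    linarith
  simp only [map_smul, map_sub, smul_apply, sub_apply, smul_eq_mul]
  field_simp
  ring

/-- lower Christoffel symbols -/
def ExData.N (z : E) : E →L[ℝ] E →L[ℝ] E :=
  -(D.c • (ip z).smulRight (ContinuousLinearMap.id ℝ E)) -
  D.c • ((ip z).smulRight (ContinuousLinearMap.id ℝ E)).flip +
  D.c • ((ContinuousLinearMap.smulRightL ℝ E E).flip z).comp ip +
  (ContinuousLinearMap.smulRightL ℝ E E (ip (D.J z))).comp D.J +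
  (ip (D.J z)).smulRight D.J

theorem ExData.N_apply (z v w : E) : D.N z v w =
    -((D.c * ip z v) • w) - (D.c * ip z w) • v + (D.c * ip v w) • z +
      (ip (D.J z) w : ℝ) • D.J v + (ip (D.J z) v : ℝ) • D.J w := by
  simp [ExData.N, smul_smul]

/-- Christoffel symbols -/
def ExData.Γ (z : E) : E →L[ℝ] E →L[ℝ] E :=
  (ContinuousLinearMap.compL ℝ E E E (D.Ginv z)).comp (D.N z)

theorem ExData.Γ_apply (z v w : E) : D.Γ z v w = D.Ginv z (D.N z v w) := rfl

theorem ExData.N_symm (z v w : E) : D.N z v w = D.N z w v := by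
  rw [D.N_apply, D.N_apply, ip_comm v w]
  module

theorem ExData.contDiff_lam : ContDiff ℝ ∞ D.lam := by
  unfold ExData.lam
  fun_prop

theorem ExData.contDiff_G : ContDiff ℝ ∞ D.G := by
  have h1 := D.contDiff_lam
  refine contDiff_clm_apply_iff.2 fun v => contDiff_clm_apply_iff.2 fun w => ?_
  simp only [D.G_apply]
  fun_prop

theorem ExData.contDiff_N (v w : E) : ContDiff ℝ ∞ (fun z => D.N z v w) := by
  simp only [D.N_apply]
  fun_prop

theorem ExData.contDiffOn_Γ {s : Set E} (hs : ∀ z ∈ s, 0 < D.lam z) : ContDiffOn ℝ ∞ D.Γ s := by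
  refine contDiffOn_clm_apply.2 fun v => contDiffOn_clm_apply.2 fun w => ?_
  simp only [D.Γ_apply, D.Ginv_apply]
  have h1 := D.contDiff_lam
  have h2 := D.contDiff_N v w
  have h3 : ContDiff ℝ ∞ (fun z => ip (D.J z) (D.J z)) := by fun_prop
  have h4 : ContDiff ℝ ∞ (fun z => ip (D.J z) (D.N z v w)) := by fun_prop
  have h5 : ContDiffOn ℝ ∞ (fun z => (D.lam z)⁻¹) s :=
    h1.contDiffOn.inv (fun z hz => (hs z hz).ne')
  have h6 : ContDiffOn ℝ ∞ (fun z => (D.lam z + ip (D.J z) (D.J z))⁻¹) s := by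
    refine (h1.add h3).contDiffOn.inv (fun z hz => ?_)
    have := hs z hz
    have h : 0 ≤ ip (D.J z) (D.J z) := ip_self_nonneg _
    linarith
  exact h5.smul (h2.contDiffOn.sub ((h6.mul h4.contDiffOn).smul
    (D.J.contDiff (n := ∞)).contDiffOn))

theorem ExData.fderiv_G (z u v w : E) : fderiv ℝ D.G z u v w =
    -2 * D.c * ip z u * ip v w + ip (D.J u) v * ip (D.J z) w +
      ip (D.J z) v * ip (D.J u) w := by
  have hd : DifferentiableAt ℝ D.G z := D.contDiff_G.contDiffAt.differentiableAt (by simp)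
  have h1 : DifferentiableAt ℝ (fun z => D.G z v) z := hd.clm_apply (differentiableAt_const v)
  have e1 : fderiv ℝ (fun z => D.G z v w) z u = fderiv ℝ D.G z u v w := by
    rw [fderiv_clm_apply h1 (differentiableAt_const w),
      fderiv_clm_apply hd (differentiableAt_const v)]
    simp
  rw [← e1]
  have e2 : (fun z => D.G z v w) = fun z : E => ((1 : ℝ) - D.c * ip z z) * ip v w +
      ip (D.J z) v * ip (D.J z) w := by
    ext z
    rw [D.G_apply, ExData.lam]
  rw [e2]
  have a1 : HasFDerivAt (fun z : E => ip z z) ((ip z).comp (ContinuousLinearMap.id ℝ E) +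
      (ip : E →L[ℝ] E →L[ℝ] ℝ).flip z) z :=
    ((ip : E →L[ℝ] E →L[ℝ] ℝ).hasFDerivAt).clm_apply (hasFDerivAt_id z)
  have a2 : ∀ v : E, HasFDerivAt (fun z : E => ip (D.J z) v)
      (((ip : E →L[ℝ] E →L[ℝ] ℝ).flip v).comp D.J) z := by
    intro v
    exact (((ip : E →L[ℝ] E →L[ℝ] ℝ).flip v).comp D.J).hasFDerivAt
  have a3 := (((a1.const_mul D.c).const_sub 1).mul_const (ip v w)).add
    ((a2 v).mul (a2 w))
  have a4 := HasFDerivAt.fderiv a3
  have e3 : ((fun y : E => (1 - D.c * ip y y) * ip v w) +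
      (fun z => ip (D.J z) v) * fun z => ip (D.J z) w) = fun z : E => ((1 : ℝ) - D.c * ip z z) *
        ip v w + ip (D.J z) v * ip (D.J z) w := rfl
  rw [e3] at a4
  rw [a4]
  simp
  rw [ip_comm u z]
  ring

theorem ExData.compat {z : E} (hz : 0 < D.lam z) (u v w : E) :
    fderiv ℝ D.G z u v w = D.G z (D.Γ z u v) w + D.G z v (D.Γ z u w) := by
  have hsymm : ∀ a b, D.G z a b = D.G z b a := by
    intro a b
    rw [D.G_apply, D.G_apply, ip_comm a b]
    ring
  rw [hsymm v, D.Γ_apply, D.Γ_apply, D.G_Ginv hz, D.G_Ginv hz, D.fderiv_G, D.N_apply, D.N_apply]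
  simp only [map_smul, map_sub, map_add, map_neg, smul_apply, sub_apply, add_apply, neg_apply,
    smul_eq_mul]
  have h1 : ip (D.J v) w = - ip (D.J w) v := by rw [D.skew v w, ip_comm v (D.J w)]
  rw [h1, ip_comm w v]
  ring


/-! ### Values at the origin -/

theorem ExData.lam_zero : D.lam 0 = 1 := by simp [ExData.lam]

theorem ExData.G_zero (v w : E) : D.G 0 v w = ip v w := by
  simp [D.G_apply, D.lam_zero]

theorem ExData.N_zero (v w : E) : D.N 0 v w = 0 := by
  simp [D.N_apply]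

theorem ExData.Γ_zero : D.Γ 0 = 0 := by
  ext v w
  rw [D.Γ_apply, D.N_zero]
  simp

theorem ExData.contDiffAt_Γ_zero : ContDiffAt ℝ ∞ D.Γ 0 := by
  have hopen : IsOpen {z : E | 0 < D.lam z} :=
    isOpen_lt continuous_const D.contDiff_lam.continuous
  have h0 : (0 : E) ∈ {z : E | 0 < D.lam z} := by
    simp [D.lam_zero]
  exact (D.contDiffOn_Γ (s := {z : E | 0 < D.lam z}) (fun z hz => hz)).contDiffAt
    (hopen.mem_nhds h0)

theorem ExData.fderiv_Γ_zero (u v w : E) : fderiv ℝ D.Γ 0 u v w = D.N u v w := by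
  have hd : DifferentiableAt ℝ D.Γ 0 := D.contDiffAt_Γ_zero.differentiableAt (by simp)
  have h1 : DifferentiableAt ℝ (fun z => D.Γ z v) 0 := hd.clm_apply (differentiableAt_const v)
  have e1 : fderiv ℝ (fun z => D.Γ z v w) 0 u = fderiv ℝ D.Γ 0 u v w := by
    rw [fderiv_clm_apply h1 (differentiableAt_const w),
      fderiv_clm_apply hd (differentiableAt_const v)]
    simp
  rw [← e1]
  have e2 : (fun z => D.Γ z v w) = fun z : E => (D.lam z)⁻¹ • (D.N z v w -
    ((D.lam z + ip (D.J z) (D.J z))⁻¹ * ip (D.J z) (D.N z v w)) • D.J z) := by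
    ext z
    rw [D.Γ_apply, D.Ginv_apply]
  rw [e2]
  -- derivative of the pieces
  have b1 : HasFDerivAt (fun z : E => D.N z v w) (fderiv ℝ (fun z : E => D.N z v w) 0) 0 :=
    ((D.contDiff_N v w).contDiffAt.differentiableAt (by simp)).hasFDerivAt
  have b2 : fderiv ℝ (fun z : E => D.N z v w) 0 u = D.N u v w := by
    have hlin : ∃ L : E →L[ℝ] E, ∀ z, L z = D.N z v w := by
      refine ⟨-((D.c • ((ip : E →L[ℝ] E →L[ℝ] ℝ).flip v)).smulRight w) -
        (D.c • ((ip : E →L[ℝ] E →L[ℝ] ℝ).flip w)).smulRight v +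
        (D.c * ip v w) • ContinuousLinearMap.id ℝ E +
        ((((ip : E →L[ℝ] E →L[ℝ] ℝ).flip w).comp D.J)).smulRight (D.J v) +
        ((((ip : E →L[ℝ] E →L[ℝ] ℝ).flip v).comp D.J)).smulRight (D.J w), fun z => ?_⟩
      rw [D.N_apply]
      simp
    obtain ⟨L, hL⟩ := hlin
    have : (fun z : E => D.N z v w) = L := by
      ext z
      rw [hL]
    rw [this, L.fderiv, hL]
  have c1 : DifferentiableAt ℝ (fun z : E => (D.lam z)⁻¹) 0 :=
    (D.contDiff_lam.contDiffAt.differentiableAt (by simp)).inv (by simp [D.lam_zero])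
  have c2 : DifferentiableAt ℝ (fun z : E => (D.lam z + ip (D.J z) (D.J z))⁻¹) 0 := by
    have h1 := D.contDiff_lam
    have : ContDiff ℝ ∞ (fun z : E => D.lam z + ip (D.J z) (D.J z)) := by fun_prop
    exact (this.contDiffAt.differentiableAt (by simp)).inv (by simp [D.lam_zero])
  have c3 : DifferentiableAt ℝ (fun z : E => (D.lam z + ip (D.J z) (D.J z))⁻¹ *
      ip (D.J z) (D.N z v w)) 0 := by
    refine c2.mul ?_
    have h4 : ContDiff ℝ ∞ (fun z => ip (D.J z) (D.N z v w)) := by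
      have h2 := D.contDiff_N v w
      fun_prop
    exact h4.contDiffAt.differentiableAt (by simp)
  have d1 := (c1.hasFDerivAt).smul (b1.sub ((c3.hasFDerivAt).smul (D.J.hasFDerivAt (x := 0))))
  have d2 := HasFDerivAt.fderiv d1
  refine Eq.trans (congrArg (fun L : E →L[ℝ] E => L u) d2) ?_
  simp [b2, D.lam_zero, D.N_zero]

theorem ExData.N_N (u v w : E) : D.N u v w - D.N v u w =
    (2 * D.c * ip v w) • u - (2 * D.c * ip u w) • v + (ip (D.J u) w : ℝ) • D.J v -
      (ip (D.J v) w : ℝ) • D.J u + (2 * ip (D.J u) v) • D.J w := by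
  rw [D.N_apply, D.N_apply, ip_comm v u, D.skew v u, ip_comm v (D.J u)]
  module

end Pool.Agent.H821R2
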