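import Pool.Agent.H821R2.ExCurv
import Pool.Agent.H821R2.Defs

/-!
Pinching below the constant does not force positivity of the curvature operator.
-/

open Bundle Manifold ContDiff VectorField Module
open scoped Topology

set_option linter.unusedSectionVars false

noncomputable section

namespace Pool.Agent.H821R2

section
variable {E : Type*} [NormedAddCommGroup E] [InnerProductSpace ℝ E] [FiniteDimensional ℝ E]

/-- the ball as an open domain -/
def ballDom (E : Type*) [NormedAddCommGroup E] (r : ℝ) (hr : 0 < r) : OpenDom E where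
  carrier := Metric.ball 0 r
  isOpen := Metric.isOpen_ball
  nonempty := ⟨0, by simpa using hr⟩

/-- the metric data of the example -/
def ExData.data (D : ExData E) (U : OpenDom E) (hU : ∀ z ∈ U.carrier, 0 < D.lam z) :
    MetricData U where
  G := D.G
  Γ := D.Γ
  smoothG := D.contDiff_G.contDiffOn
  smoothΓ := D.contDiffOn_Γ hU
  symm z hz v w := by
    rw [D.G_apply, D.G_apply, ip_comm v w]
    ring
  pos z hz v hv := by
    rw [D.G_apply]
    have h1 : 0 < ip v v := by
      rw [ip_self_eq]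
      have := norm_pos_iff.2 hv
      positivity
    have h2 := mul_self_nonneg (ip (D.J z) v)
    have h3 := mul_pos (hU z hz) h1
    linarith
  torsion z hz v w := by
    rw [D.Γ_apply, D.Γ_apply, D.N_symm]
  compat z hz u v w := D.compat (hU z hz) u v w

theorem exists_R [Nontrivial E] (D : ExData E) (U : OpenDom E)
    (hU : ∀ z ∈ U.carrier, 0 < D.lam z) :
    ∃ R : CurvField 𝓘(ℝ, E) U.Pt, IsRiemannTensor (D.data U hU).cov R ∧
      ∀ (x : U.Pt) (u v w : E), R x u v w = D.R (U.val x) u v w := by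
  have hcov := (D.data U hU).isLeviCivita
  have hex : ∃ R : CurvField 𝓘(ℝ, E) U.Pt, IsRiemannTensor (D.data U hU).cov R := by
    let _ : RiemannianBundle (fun x : U.Pt => TangentSpace 𝓘(ℝ, E) x) :=
      ⟨(D.data U hU).metric.toRiemannianMetric⟩
    have hB : IsLeviCivitaB (D.data U hU).cov := ⟨hcov.smooth, hcov.metric, hcov.torsionFree⟩
    exact exists_riemann hB
  obtain ⟨R, hR⟩ := hex
  refine ⟨R, hR, fun x u v w => ?_⟩
  have h1 := hR (smooth_constField (U := U) u) (smooth_constField (U := U) v)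
    (smooth_constField (U := U) w) x
  rw [MetricData.curv_const] at h1
  exact h1

theorem data_sec (D : ExData E) (U : OpenDom E) (hU : ∀ z ∈ U.carrier, 0 < D.lam z)
    (R : CurvField 𝓘(ℝ, E) U.Pt) (hRv : ∀ (x : U.Pt) (u v w : E), R x u v w = D.R (U.val x) u v w)
    (x : U.Pt) (u v : TangentSpace 𝓘(ℝ, E) x) :
    sec (D.data U hU).metric R x u v = D.Q (U.val x, u, v) := by
  unfold sec
  rw [MetricData.metric_inner, hRv]
  rfl

theorem data_pinched (D : ExData E) (U : OpenDom E) (hU : ∀ z ∈ U.carrier, 0 < D.lam z)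
    (R : CurvField 𝓘(ℝ, E) U.Pt) (hRv : ∀ (x : U.Pt) (u v w : E), R x u v w = D.R (U.val x) u v w)
    {a b δ : ℝ} (hδ : 0 < δ) (ha : 0 < a) (hab : δ * b ≤ a)
    (h : ∀ z ∈ U.carrier, ∀ u v, D.G z u u = 1 → D.G z v v = 1 → D.G z u v = 0 →
        a < D.Q (z, u, v) ∧ D.Q (z, u, v) < b) :
    PointwisePinched (D.data U hU).metric R δ := by
  have hb : ∀ (x : U.Pt) (u v : TangentSpace 𝓘(ℝ, E) x),
      OrthoPair (D.data U hU).metric x u v →
      a < sec (D.data U hU).metric R x u v ∧ sec (D.data U hU).metric R x u v < b := by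
    rintro x u v ⟨hu, hv, huv⟩
    rw [data_sec D U hU R hRv]
    exact h (U.val x) x.2 u v hu hv huv
  constructor
  · intro x u v h
    have h1 := hb x u v h
    linarith
  · intro x u v u' v' h h'
    have h1 := hb x u v h
    have h2 := hb x u' v' h'
    nlinarith

theorem bil_sum {m : ℕ} (B : (⋀[ℝ]^2 E) →ₗ[ℝ] (⋀[ℝ]^2 E) →ₗ[ℝ] ℝ) (w : Fin m ⊕ Fin m → E) :
    B (etaVec w) (etaVec w) = ∑ i : Fin m, ∑ j : Fin m,
      B (wedge (w (Sum.inl i)) (w (Sum.inr i))) (wedge (w (Sum.inl j)) (w (Sum.inr j))) := by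
  simp only [etaVec, map_sum, LinearMap.sum_apply]
  exact Finset.sum_comm

theorem data_not_pos {m : ℕ} (hm : 0 < m) {w : Fin m ⊕ Fin m → E} (hw : Orthonormal ℝ w)
    (U : OpenDom E) (hU : ∀ z ∈ U.carrier, 0 < (exData w).lam z) (h0 : (0 : E) ∈ U.carrier)
    (R : CurvField 𝓘(ℝ, E) U.Pt)
    (hRv : ∀ (x : U.Pt) (u v y : E), R x u v y = (exData w).R (U.val x) u v y) :
    ¬ HasPositiveCurvatureOperator ((exData w).data U hU).metric R := by
  intro hpos
  let x0 : U.Pt := ⟨0, h0⟩
  obtain ⟨B₀, hB, hBpos⟩ := hpos x0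
  let B : (⋀[ℝ]^2 E) →ₗ[ℝ] (⋀[ℝ]^2 E) →ₗ[ℝ] ℝ := B₀
  have hη : 0 < B (etaVec w) (etaVec w) := by
    let e : ⋀[ℝ]^2 E := etaVec w
    have he : e ≠ 0 := etaVec_ne_zero hw hm
    exact hBpos e he
  have hzero : B (etaVec w) (etaVec w) = 0 := by
    have h1 := exData_sum hw
    rw [← h1]
    have h2 : ∀ i j : Fin m, B (wedge (w (Sum.inl i)) (w (Sum.inr i)))
        (wedge (w (Sum.inl j)) (w (Sum.inr j))) =
        ip ((exData w).R 0 (w (Sum.inl i)) (w (Sum.inr i)) (w (Sum.inr j))) (w (Sum.inl j)) := by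
      intro i j
      have h3 := hB (w (Sum.inl i)) (w (Sum.inr i)) (w (Sum.inl j)) (w (Sum.inr j))
      have h4 : ((exData w).data U hU).metric.inner x0 (R x0 (w (Sum.inl i)) (w (Sum.inr i))
          (w (Sum.inr j))) (w (Sum.inl j)) =
          ip ((exData w).R 0 (w (Sum.inl i)) (w (Sum.inr i)) (w (Sum.inr j))) (w (Sum.inl j)) := by
        rw [MetricData.metric_inner, hRv]
        change (exData w).G 0 _ _ = _
        rw [ExData.G_zero]
        rfl
      rw [← h4]
      exact h3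
    rw [bil_sum]
    exact Finset.sum_congr rfl fun i _ => Finset.sum_congr rfl fun j _ => h2 i j
  rw [hzero] at hη
  exact lt_irrefl _ hη

/-- The example: a pointwise `δ`-pinched metric whose curvature operator is not positive. -/
theorem exists_example [Nontrivial E] {m : ℕ} (hm : 2 ≤ m) {w : Fin m ⊕ Fin m → E}
    (hw : Orthonormal ℝ w) {δ : ℝ} (hδ0 : 0 < δ)
    (hδ : δ < 2 * ((m : ℕ) - 1 : ℝ) / (2 * (m : ℕ) + 1)) :
    ∃ (U : OpenDom E) (D : MetricData U) (R : CurvField 𝓘(ℝ, E) U.Pt),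
      IsRiemannTensor D.cov R ∧ PointwisePinched D.metric R δ ∧
        ¬ HasPositiveCurvatureOperator D.metric R := by
  have hmR : (2 : ℝ) ≤ m := by exact_mod_cast hm
  set ε : ℝ := (2 * m - 2 - δ * (2 * m + 1)) / (2 * (1 + δ)) with hε
  have hnum : 0 < 2 * (m : ℝ) - 2 - δ * (2 * m + 1) := by
    rw [lt_div_iff₀ (by positivity)] at hδ
    linarith
  have hε0 : 0 < ε := by positivity
  have hε1 : ε * (1 + δ) ≤ 2 * m - 2 - δ * (2 * m + 1) := by
    have : ε * (1 + δ) = (2 * m - 2 - δ * (2 * m + 1)) / 2 := by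
      rw [hε]
      field_simp
    rw [this]
    linarith
  obtain ⟨r, hr, hlam, hnear⟩ := (exData w).near (a := 2 * m - 2 - ε) (b := 2 * m + 1 + ε) (by
    intro u v hu hv huv
    have := exData_Q hw u v hu hv huv
    constructor <;> linarith [this.1, this.2])
  have hmemU : ∀ z ∈ (ballDom E r hr).carrier, ‖z‖ < r := by
    intro z hz
    have : z ∈ Metric.ball (0 : E) r := hz
    simpa using this
  have hU : ∀ z ∈ (ballDom E r hr).carrier, 0 < (exData w).lam z := fun z hz => hlam z (hmemU z hz)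
  obtain ⟨R, hR, hRv⟩ := exists_R (exData w) (ballDom E r hr) hU
  refine ⟨ballDom E r hr, (exData w).data _ hU, R, hR, ?_, ?_⟩
  · refine data_pinched (exData w) _ hU R hRv (a := 2 * m - 2 - ε) (b := 2 * m + 1 + ε) hδ0 ?_ ?_ ?_
    · have h1 : 0 < δ * (2 * (m : ℝ) + 1) := by positivity
      have h2 : 0 < ε * δ := by positivity
      linarith
    · linarith
    · intro z hz u v hu hv huv
      exact hnear z (hmemU z hz) u v hu hv huv
  · refine data_not_pos (by omega) hw _ hU ?_ R hRv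
    change (0 : E) ∈ Metric.ball (0 : E) r
    simpa using hr

end

theorem not_forces {d : ℕ} (hd : 4 ≤ d) {δ : ℝ} (hδ0 : 0 < δ)
    (hδ : δ < 2 * ((d / 2 : ℕ) - 1 : ℝ) / (2 * (d / 2 : ℕ) + 1)) : ¬ Forces d δ := by
  have hm2 : 2 ≤ d / 2 := by omega
  have h2m : d / 2 + d / 2 ≤ d := by omega
  have hw : Orthonormal ℝ (fun k : Fin (d / 2) ⊕ Fin (d / 2) =>
      EuclideanSpace.basisFun (Fin d) ℝ (Fin.castLE h2m (finSumFinEquiv k))) :=
    (EuclideanSpace.basisFun (Fin d) ℝ).orthonormal.comp _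
      ((Fin.castLE_injective h2m).comp finSumFinEquiv.injective)
  have hne : Nontrivial (EuclideanSpace ℝ (Fin d)) := by
    have : Nonempty (Fin d) := ⟨⟨0, by omega⟩⟩
    infer_instance
  obtain ⟨U, D, R, hR, hpin, hnot⟩ := exists_example hm2 hw hδ0 hδ
  intro hF
  exact hnot (hF U.Pt D.metric D.cov R D.isLeviCivita hR hpin)

end Pool.Agent.H821R2
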