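import Pool.Agent.H821R2.Riem

/-!
A nonempty open subset of a normed space as a manifold with a single chart.
-/

open Bundle Manifold ContDiff VectorField Filter Topology
open scoped Topology

set_option linter.unusedSectionVars false

noncomputable section

namespace Pool.Agent.H821R2

/-- A nonempty open subset of `E`. -/
structure OpenDom (E : Type*) [NormedAddCommGroup E] where
  carrier : Set E
  isOpen : IsOpen carrier
  nonempty : carrier.Nonempty

variable {E : Type*} [NormedAddCommGroup E] [NormedSpace ℝ E] [FiniteDimensional ℝ E]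

/-- The points of a nonempty open subset of `E`. -/
def OpenDom.Pt (U : OpenDom E) : Type _ := {x : E // x ∈ U.carrier}

variable (U : OpenDom E)

instance : TopologicalSpace U.Pt := inferInstanceAs (TopologicalSpace {x : E // x ∈ U.carrier})

instance : Nonempty U.Pt := ⟨⟨U.nonempty.some, U.nonempty.some_mem⟩⟩

/-- The inclusion of the open set. -/
def OpenDom.val (x : U.Pt) : E := x.1

theorem OpenDom.isOpenEmbedding_val : IsOpenEmbedding U.val := U.isOpen.isOpenEmbedding_subtypeVal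

instance : T2Space U.Pt := inferInstanceAs (T2Space {x : E // x ∈ U.carrier})

instance : SecondCountableTopology U.Pt :=
  inferInstanceAs (SecondCountableTopology {x : E // x ∈ U.carrier})

instance : ChartedSpace E U.Pt := U.isOpenEmbedding_val.singletonChartedSpace

instance : IsManifold 𝓘(ℝ, E) ∞ U.Pt := U.isOpenEmbedding_val.isManifold_singleton

instance : LocallyCompactSpace U.Pt := ChartedSpace.locallyCompactSpace E U.Pt

instance : SigmaCompactSpace U.Pt := sigmaCompactSpace_of_locallyCompact_secondCountable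

/-- The chart. -/
def OpenDom.chart : OpenPartialHomeomorph U.Pt E :=
  U.isOpenEmbedding_val.toOpenPartialHomeomorph U.val

theorem OpenDom.chartAt_eq (x : U.Pt) : chartAt E x = U.chart := rfl

theorem OpenDom.chart_target : U.chart.target = U.carrier := by
  rw [OpenDom.chart, IsOpenEmbedding.toOpenPartialHomeomorph_target]
  ext z
  constructor
  · rintro ⟨y, rfl⟩
    exact y.2
  · intro hz
    exact ⟨⟨z, hz⟩, rfl⟩

theorem OpenDom.chart_source : U.chart.source = Set.univ := by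
  rw [OpenDom.chart, IsOpenEmbedding.toOpenPartialHomeomorph_source]

theorem OpenDom.chart_apply (x : U.Pt) : U.chart x = U.val x := rfl

theorem OpenDom.val_mem (x : U.Pt) : U.val x ∈ U.carrier := x.2

theorem OpenDom.val_chart_symm {z : E} (hz : z ∈ U.carrier) : U.val (U.chart.symm z) = z := by
  rw [← U.chart_target] at hz
  exact U.chart.right_inv hz

theorem OpenDom.chart_symm_val (x : U.Pt) : U.chart.symm (U.val x) = x :=
  U.chart.left_inv (by rw [U.chart_source]; trivial)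

theorem OpenDom.mem_nhds (x : U.Pt) : U.carrier ∈ 𝓝 (U.val x) := U.isOpen.mem_nhds x.2

theorem OpenDom.extChartAt_eq (x y : U.Pt) : extChartAt 𝓘(ℝ, E) x y = U.val y := by
  simp only [extChartAt, OpenPartialHomeomorph.extend, modelWithCornersSelf_partialEquiv,
    PartialEquiv.trans_refl]
  rfl

theorem OpenDom.extChartAt_symm_eq (x : U.Pt) (z : E) :
    (extChartAt 𝓘(ℝ, E) x).symm z = U.chart.symm z := by
  simp only [extChartAt, OpenPartialHomeomorph.extend, modelWithCornersSelf_partialEquiv,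
    PartialEquiv.trans_refl]
  rfl

theorem OpenDom.trivializationAt_snd (x y : U.Pt) (v : E) :
    (trivializationAt E (TangentSpace 𝓘(ℝ, E)) x ⟨y, v⟩).2 = v := by
  rw [TangentBundle.trivializationAt_apply]
  change (fderivWithin ℝ (extChartAt 𝓘(ℝ, E) x ∘ (extChartAt 𝓘(ℝ, E) y).symm)
    (Set.range 𝓘(ℝ, E)) (extChartAt 𝓘(ℝ, E) y y)) v = v
  rw [modelWithCornersSelf_coe, Set.range_id, fderivWithin_univ]
  have h : (extChartAt 𝓘(ℝ, E) x ∘ (extChartAt 𝓘(ℝ, E) y).symm) =ᶠ[𝓝 (U.val y)] id := by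
    filter_upwards [U.mem_nhds y] with z hz
    simp only [Function.comp, OpenDom.extChartAt_eq, OpenDom.extChartAt_symm_eq, id]
    exact U.val_chart_symm hz
  rw [OpenDom.extChartAt_eq, h.fderiv_eq, fderiv_id]
  rfl

/-- coordinate expression of a function -/
def OpenDom.lift {F : Type*} (f : U.Pt → F) (z : E) : F := f (U.chart.symm z)

theorem OpenDom.lift_val {F : Type*} (f : U.Pt → F) (x : U.Pt) : U.lift f (U.val x) = f x := by
  rw [OpenDom.lift, U.chart_symm_val]

variable {F : Type*} [NormedAddCommGroup F] [NormedSpace ℝ F]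

theorem OpenDom.contMDiffAt_iff {n : ℕ∞ω} (f : U.Pt → F) (x : U.Pt) :
    ContMDiffAt 𝓘(ℝ, E) 𝓘(ℝ, F) n f x ↔ ContDiffAt ℝ n (U.lift f) (U.val x) := by
  have : (fun z => f ((extChartAt 𝓘(ℝ, E) x).symm z)) = U.lift f := by
    ext z
    simp only [OpenDom.extChartAt_symm_eq, OpenDom.lift]
  rw [_root_.contMDiffAt_iff]
  simp only [modelWithCornersSelf_coe, Set.range_id, contDiffWithinAt_univ,
    OpenDom.extChartAt_eq, extChartAt_model_space_eq_id, PartialEquiv.refl_coe]
  have h2 : (id ∘ f ∘ ↑(extChartAt 𝓘(ℝ, E) x).symm) = U.lift f := by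
    rw [← this]; rfl
  rw [h2]
  constructor
  · exact fun h => h.2
  · intro h
    refine ⟨?_, h⟩
    have h3 : ContinuousAt (U.lift f) (U.val x) := h.continuousAt
    have h4 : f = U.lift f ∘ U.val := by
      ext y
      simp [OpenDom.lift_val]
    rw [h4]
    exact ContinuousAt.comp h3 U.isOpenEmbedding_val.continuous.continuousAt

theorem OpenDom.mdifferentiableAt_iff (f : U.Pt → F) (x : U.Pt) :
    MDifferentiableAt 𝓘(ℝ, E) 𝓘(ℝ, F) f x ↔ DifferentiableAt ℝ (U.lift f) (U.val x) := by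
  have : (fun z => f ((extChartAt 𝓘(ℝ, E) x).symm z)) = U.lift f := by
    ext z
    simp only [OpenDom.extChartAt_symm_eq, OpenDom.lift]
  rw [_root_.mdifferentiableAt_iff]
  simp only [modelWithCornersSelf_coe, Set.range_id, differentiableWithinAt_univ,
    OpenDom.extChartAt_eq, writtenInExtChartAt, extChartAt_model_space_eq_id,
    PartialEquiv.refl_coe]
  have h2 : (id ∘ f ∘ ↑(extChartAt 𝓘(ℝ, E) x).symm) = U.lift f := by
    rw [← this]; rfl
  rw [h2]
  constructor
  · exact fun h => h.2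
  · intro h
    refine ⟨?_, h⟩
    have h3 : ContinuousAt (U.lift f) (U.val x) := h.continuousAt
    have h4 : f = U.lift f ∘ U.val := by
      ext y
      simp [OpenDom.lift_val]
    rw [h4]
    exact ContinuousAt.comp h3 U.isOpenEmbedding_val.continuous.continuousAt

theorem OpenDom.mvfderiv_eq (f : U.Pt → F) (x : U.Pt)
    (h : MDifferentiableAt 𝓘(ℝ, E) 𝓘(ℝ, F) f x) (v : E) :
    mvfderiv 𝓘(ℝ, E) f x v = fderiv ℝ (U.lift f) (U.val x) v := by
  have : (fun z => f ((extChartAt 𝓘(ℝ, E) x).symm z)) = U.lift f := by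
    ext z
    simp only [OpenDom.extChartAt_symm_eq, OpenDom.lift]
  have h2 : (id ∘ f ∘ ↑(extChartAt 𝓘(ℝ, E) x).symm) = U.lift f := by
    rw [← this]; rfl
  have e : mfderiv 𝓘(ℝ, E) 𝓘(ℝ, F) f x = fderiv ℝ (U.lift f) (U.val x) := by
    rw [mfderiv]
    simp only [h]
    simp only [modelWithCornersSelf_coe, Set.range_id, fderivWithin_univ,
      OpenDom.extChartAt_eq, writtenInExtChartAt, extChartAt_model_space_eq_id,
      PartialEquiv.refl_coe]
    rw [h2]
    exact if_pos trivial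
  change (mfderiv 𝓘(ℝ, E) 𝓘(ℝ, F) f x) v = _
  rw [e]
  rfl


/-- coordinate expression of a vector field -/
def OpenDom.vec (X : Π x : U.Pt, TangentSpace 𝓘(ℝ, E) x) (z : E) : E := X (U.chart.symm z)

theorem OpenDom.vec_val (X : Π x : U.Pt, TangentSpace 𝓘(ℝ, E) x) (x : U.Pt) :
    U.vec X (U.val x) = X x := by
  rw [OpenDom.vec, U.chart_symm_val]

theorem OpenDom.contMDiffAt_section {n : ℕ∞ω} (X : Π x : U.Pt, TangentSpace 𝓘(ℝ, E) x)
    (x : U.Pt) :
    ContMDiffAt 𝓘(ℝ, E) 𝓘(ℝ, E).tangent n (T% X) x ↔ ContDiffAt ℝ n (U.vec X) (U.val x) := by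
  rw [Bundle.contMDiffAt_section]
  have : (fun y => (trivializationAt E (TangentSpace 𝓘(ℝ, E)) x ⟨y, X y⟩).2) =
      (fun y => (X y : E)) := by
    ext1 y
    exact U.trivializationAt_snd x y (X y)
  rw [this]
  exact U.contMDiffAt_iff (fun y => (X y : E)) x

theorem OpenDom.mdifferentiableAt_section (X : Π x : U.Pt, TangentSpace 𝓘(ℝ, E) x)
    (x : U.Pt) :
    MDifferentiableAt 𝓘(ℝ, E) 𝓘(ℝ, E).tangent (T% X) x ↔
      DifferentiableAt ℝ (U.vec X) (U.val x) := by
  rw [_root_.mdifferentiableAt_section]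
  have : (fun y => (trivializationAt E (TangentSpace 𝓘(ℝ, E)) x ⟨y, X y⟩).2) =
      (fun y => (X y : E)) := by
    ext1 y
    exact U.trivializationAt_snd x y (X y)
  rw [this]
  exact U.mdifferentiableAt_iff (fun y => (X y : E)) x

theorem OpenDom.mlieBracket_eq (X Y : Π x : U.Pt, TangentSpace 𝓘(ℝ, E) x) (x : U.Pt) :
    mlieBracket 𝓘(ℝ, E) X Y x = lieBracket ℝ (U.vec X) (U.vec Y) (U.val x) := by
  have key : ∀ y : U.Pt, ∀ z ∈ U.carrier,
      mfderivWithin 𝓘(ℝ, E) 𝓘(ℝ, E) (extChartAt 𝓘(ℝ, E) y).symm (Set.range 𝓘(ℝ, E)) z =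
        ContinuousLinearMap.id ℝ E := by
    intro y z hz
    have hd : MDifferentiableWithinAt 𝓘(ℝ, E) 𝓘(ℝ, E) (extChartAt 𝓘(ℝ, E) y).symm
        (Set.range 𝓘(ℝ, E)) z := by
      apply mdifferentiableWithinAt_extChartAt_symm
      rw [extChartAt_target]
      simp only [modelWithCornersSelf_coe_symm, modelWithCornersSelf_coe, Set.range_id,
        Set.inter_univ, Set.preimage_id]
      rw [OpenDom.chartAt_eq, U.chart_target]
      exact hz
    refine (if_pos hd).trans ?_
    simp only [modelWithCornersSelf_coe, Set.range_id, Set.preimage_univ,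
      Set.inter_univ, fderivWithin_univ, writtenInExtChartAt, extChartAt_model_space_eq_id,
      PartialEquiv.refl_coe, PartialEquiv.refl_symm, id]
    have h : (extChartAt 𝓘(ℝ, E) ((extChartAt 𝓘(ℝ, E) y).symm z) ∘
        (extChartAt 𝓘(ℝ, E) y).symm ∘ id) =ᶠ[𝓝 z] id := by
      filter_upwards [U.isOpen.mem_nhds hz] with z' hz'
      simp only [Function.comp, OpenDom.extChartAt_eq, OpenDom.extChartAt_symm_eq, id]
      exact U.val_chart_symm hz'
    have h2 := h.fderiv_eq (𝕜 := ℝ)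
    rw [fderiv_id] at h2
    exact h2
  have hvec : ∀ Z : Π x : U.Pt, TangentSpace 𝓘(ℝ, E) x, 
      mpullbackWithin 𝓘(ℝ, E) 𝓘(ℝ, E) (extChartAt 𝓘(ℝ, E) x).symm Z (Set.range 𝓘(ℝ, E))
        =ᶠ[𝓝 (U.val x)] U.vec Z := by
    intro Z
    filter_upwards [U.mem_nhds x] with z hz
    have h1 : mpullbackWithin 𝓘(ℝ, E) 𝓘(ℝ, E) (extChartAt 𝓘(ℝ, E) x).symm Z
        (Set.range 𝓘(ℝ, E)) z = (ContinuousLinearMap.id ℝ E).inverse
          (Z ((extChartAt 𝓘(ℝ, E) x).symm z)) := by
      rw [mpullbackWithin_apply, key x z hz]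
      rfl
    rw [h1, ContinuousLinearMap.inverse_id, OpenDom.vec]
    have h3 : ∀ a b : U.Pt, a = b → (Z a : E) = Z b := by
      intro a b hab
      rw [hab]
    exact h3 _ _ (U.extChartAt_symm_eq x z)
  have hmf : mfderiv 𝓘(ℝ, E) 𝓘(ℝ, E) (extChartAt 𝓘(ℝ, E) x) x = ContinuousLinearMap.id ℝ E := by
    refine (if_pos (mdifferentiableAt_extChartAt (mem_chart_source E x))).trans ?_
    simp only [modelWithCornersSelf_coe, Set.range_id, 
      fderivWithin_univ, writtenInExtChartAt, extChartAt_model_space_eq_id,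
      PartialEquiv.refl_coe]
    have h : (id ∘ (extChartAt 𝓘(ℝ, E) x) ∘
        (extChartAt 𝓘(ℝ, E) x).symm) =ᶠ[𝓝 (extChartAt 𝓘(ℝ, E) x x)] id := by
      rw [OpenDom.extChartAt_eq]
      filter_upwards [U.mem_nhds x] with z' hz'
      simp only [Function.comp, OpenDom.extChartAt_eq, OpenDom.extChartAt_symm_eq, id]
      exact U.val_chart_symm hz'
    have h2 := h.fderiv_eq (𝕜 := ℝ)
    rw [fderiv_id] at h2
    exact h2
  have e1 : mlieBracket 𝓘(ℝ, E) X Y x = (ContinuousLinearMap.id ℝ E).inverse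
      (lieBracketWithin ℝ
      (mpullbackWithin 𝓘(ℝ, E) 𝓘(ℝ, E) (extChartAt 𝓘(ℝ, E) x).symm X (Set.range 𝓘(ℝ, E)))
      (mpullbackWithin 𝓘(ℝ, E) 𝓘(ℝ, E) (extChartAt 𝓘(ℝ, E) x).symm Y (Set.range 𝓘(ℝ, E)))
      ((extChartAt 𝓘(ℝ, E) x).symm ⁻¹' Set.univ ∩ Set.range 𝓘(ℝ, E)) (extChartAt 𝓘(ℝ, E) x x)) := by
    rw [← mlieBracketWithin_univ, mlieBracketWithin_apply, hmf]
    rfl
  rw [e1, ContinuousLinearMap.inverse_id]
  simp only [Set.preimage_univ, modelWithCornersSelf_coe, Set.range_id, Set.univ_inter,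
    OpenDom.extChartAt_eq]
  have hX := hvec X
  have hY := hvec Y
  simp only [modelWithCornersSelf_coe, Set.range_id] at hX hY
  have aux : ∀ (V W V' W' : E → E) (z : E), V =ᶠ[𝓝 z] V' → W =ᶠ[𝓝 z] W' →
      lieBracketWithin ℝ V W Set.univ z = lieBracket ℝ V' W' z := by
    intro V W V' W' z h1 h2
    rw [lieBracketWithin_univ]
    exact Filter.EventuallyEq.lieBracket_vectorField_eq h1 h2
  exact aux _ _ _ _ _ hX hY

end Pool.Agent.H821R2
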