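import Pool.Agent.H821R2.OneChartLC

/-!
The connection of coordinate data is the Levi-Civita connection, and its curvature.
-/

open Bundle Manifold ContDiff VectorField Filter Topology
open scoped Topology

set_option linter.unusedSectionVars false

noncomputable section

namespace Pool.Agent.H821R2

variable {E : Type*} [NormedAddCommGroup E] [NormedSpace ℝ E] [FiniteDimensional ℝ E]

variable {U : OpenDom E} (D : MetricData U)

theorem MetricData.cov_apply (σ : Π x : U.Pt, TangentSpace 𝓘(ℝ, E) x) (x : U.Pt) (v : E) :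
    D.cov σ x v = fderiv ℝ (U.vec σ) (U.val x) v + D.Γ (U.val x) v (σ x) := rfl

theorem MetricData.smooth_cov :
    CovariantDerivative.ContMDiffCovariantDerivative D.cov ∞ := by
  refine ⟨⟨?_⟩⟩
  intro σ hσ
  rw [contMDiffOn_univ] at hσ ⊢
  have h1 : ∀ z ∈ U.carrier, ContDiffAt ℝ ∞ (U.vec σ) z := by
    intro z hz
    have := (U.contMDiffAt_section σ (U.chart.symm z)).1 (hσ _)
    rwa [U.val_chart_symm hz] at this
  refine U.contMDiff_end (fun z => fderiv ℝ (U.vec σ) z + (D.Γ z).flip (U.vec σ z)) ?_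
    (D.cov σ) ?_
  · intro z hz
    have h2 : ContDiffAt ℝ ∞ (fderiv ℝ (U.vec σ)) z := (h1 z hz).fderiv_right (by simp)
    have h3 : ContDiffAt ℝ ∞ D.Γ z := D.smoothΓ.contDiffAt (U.isOpen.mem_nhds hz)
    have h4 : ContDiffAt ℝ ∞ (fun z => (D.Γ z).flip) z := by
      have := (ContinuousLinearMap.flipₗᵢ ℝ E E E).contDiff.contDiffAt.comp z h3
        (n := ∞)
      exact this
    exact (h2.add (h4.clm_apply (h1 z hz))).contDiffWithinAt
  · intro x v
    change fderiv ℝ (U.vec σ) (U.val x) v + D.Γ (U.val x) v (σ x) =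
      fderiv ℝ (U.vec σ) (U.val x) v + D.Γ (U.val x) v (U.vec σ (U.val x))
    rw [U.vec_val]

theorem vec_contDiffAt {σ : Π x : U.Pt, TangentSpace 𝓘(ℝ, E) x}
    (hσ : ContMDiff 𝓘(ℝ, E) 𝓘(ℝ, E).tangent ∞ (T% σ)) {z : E} (hz : z ∈ U.carrier) : ContDiffAt ℝ ∞ (U.vec σ) z := by
  have := (U.contMDiffAt_section σ (U.chart.symm z)).1 (hσ _)
  rwa [U.val_chart_symm hz] at this

theorem fderiv_bilin_aux {G : E → E →L[ℝ] E →L[ℝ] ℝ} {Y Z : E → E} {z : E}
    (hG : DifferentiableAt ℝ G z) (hY : DifferentiableAt ℝ Y z) (hZ : DifferentiableAt ℝ Z z)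
    (v : E) : fderiv ℝ (fun z => G z (Y z) (Z z)) z v =
      fderiv ℝ G z v (Y z) (Z z) + G z (fderiv ℝ Y z v) (Z z) + G z (Y z) (fderiv ℝ Z z v) := by
  rw [fderiv_clm_apply (hG.clm_apply hY) hZ, fderiv_clm_apply hG hY]
  simp
  ring

theorem MetricData.metric_aux {z : E} (hz : z ∈ U.carrier) {Y Z : E → E}
    (hY : DifferentiableAt ℝ Y z) (hZ : DifferentiableAt ℝ Z z) (v : E) :
    fderiv ℝ (fun z => D.G z (Y z) (Z z)) z v =
      D.G z (fderiv ℝ Y z v + D.Γ z v (Y z)) (Z z) +
      D.G z (Y z) (fderiv ℝ Z z v + D.Γ z v (Z z)) := by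
  have hG : DifferentiableAt ℝ D.G z :=
      (D.smoothG.contDiffAt (U.isOpen.mem_nhds hz)).differentiableAt (by simp)
  rw [fderiv_bilin_aux hG hY hZ, D.compat z hz]
  simp only [map_add, add_apply]
  ring

theorem MetricData.isLeviCivita : IsLeviCivita D.metric D.cov where
  smooth := D.smooth_cov
  metric := by
    intro X Y Z hX hY hZ x
    have hYd : DifferentiableAt ℝ (U.vec Y) (U.val x) :=
      (vec_contDiffAt hY (U.val_mem x)).differentiableAt (by simp)
    have hZd : DifferentiableAt ℝ (U.vec Z) (U.val x) :=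
      (vec_contDiffAt hZ (U.val_mem x)).differentiableAt (by simp)
    have hGd : DifferentiableAt ℝ D.G (U.val x) :=
      (D.smoothG.contDiffAt (U.mem_nhds x)).differentiableAt (by simp)
    have e1 : U.lift (fun y => D.metric.inner y (Y y) (Z y)) =ᶠ[𝓝 (U.val x)]
        fun z => D.G z (U.vec Y z) (U.vec Z z) := by
      filter_upwards [U.mem_nhds x] with z hz
      simp only [OpenDom.lift]
      change D.G (U.val (U.chart.symm z)) (Y (U.chart.symm z)) (Z (U.chart.symm z)) = _
      rw [U.val_chart_symm hz]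
      rfl
    have hd : DifferentiableAt ℝ (fun z => D.G z (U.vec Y z) (U.vec Z z)) (U.val x) :=
      (hGd.clm_apply hYd).clm_apply hZd
    have hmd : MDifferentiableAt 𝓘(ℝ, E) 𝓘(ℝ, ℝ) (fun y => D.metric.inner y (Y y) (Z y)) x := by
      rw [U.mdifferentiableAt_iff]
      exact hd.congr_of_eventuallyEq e1
    have e2 := U.mvfderiv_eq (fun y => D.metric.inner y (Y y) (Z y)) x hmd (X x)
    refine e2.trans ?_
    rw [e1.fderiv_eq]
    have e3 := D.metric_aux (U.val_mem x) hYd hZd (X x)
    have hYv : U.vec Y (U.val x) = Y x := U.vec_val Y x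
    have hZv : U.vec Z (U.val x) = Z x := U.vec_val Z x
    rw [hYv, hZv] at e3
    exact e3
  torsionFree := by
    intro X Y hX hY x
    rw [U.mlieBracket_eq]
    change (fderiv ℝ (U.vec Y) (U.val x) (X x) + D.Γ (U.val x) (X x) (Y x)) -
      (fderiv ℝ (U.vec X) (U.val x) (Y x) + D.Γ (U.val x) (Y x) (X x)) =
      fderiv ℝ (U.vec Y) (U.val x) (U.vec X (U.val x)) -
      fderiv ℝ (U.vec X) (U.val x) (U.vec Y (U.val x))
    have hXv : U.vec X (U.val x) = X x := U.vec_val X x
    have hYv : U.vec Y (U.val x) = Y x := U.vec_val Y x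
    rw [hXv, hYv, D.torsion (U.val x) (U.val_mem x) (X x) (Y x)]
    abel

/-- coordinate expression of the curvature -/
def MetricData.Rm (z u v w : E) : E :=
  fderiv ℝ D.Γ z u v w - fderiv ℝ D.Γ z v u w + D.Γ z u (D.Γ z v w) - D.Γ z v (D.Γ z u w)

/-- constant vector field -/
def constField (U : OpenDom E) (u : E) : Π x : U.Pt, TangentSpace 𝓘(ℝ, E) x := fun _ => u

theorem vec_constField (u : E) : U.vec (constField U u) = fun _ => u := rfl

theorem smooth_constField (u : E) :
    ContMDiff 𝓘(ℝ, E) 𝓘(ℝ, E).tangent ∞ (T% (constField U u)) := by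
  intro x
  rw [U.contMDiffAt_section, vec_constField]
  exact contDiffAt_const

theorem MetricData.curv_const (u v w : E) (x : U.Pt) :
    curv D.cov (constField U u) (constField U v) (constField U w) x =
      D.Rm (U.val x) u v w := by
  have hn : ∀ a b : E, U.vec (nabla D.cov (constField U a) (constField U b)) =ᶠ[𝓝 (U.val x)]
      fun z => D.Γ z a b := by
    intro a b
    filter_upwards [U.mem_nhds x] with z hz
    change fderiv ℝ (U.vec (constField U b)) (U.val (U.chart.symm z)) a +
      D.Γ (U.val (U.chart.symm z)) a b = D.Γ z a b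
    rw [vec_constField, U.val_chart_symm hz]
    simp
  have hnv : ∀ a b : E, nabla D.cov (constField U a) (constField U b) x =
      (D.Γ (U.val x) a b : E) := by
    intro a b
    have h1 := (hn a b).self_of_nhds
    exact (U.vec_val _ x).symm.trans h1
  have hb : mlieBracket 𝓘(ℝ, E) (constField U u) (constField U v) x = (0 : E) := by
    rw [U.mlieBracket_eq, vec_constField, vec_constField]
    simp [lieBracket]
  have hΓd : DifferentiableAt ℝ D.Γ (U.val x) :=
    (D.smoothΓ.contDiffAt (U.mem_nhds x)).differentiableAt (by simp)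
  have hfd : ∀ a b c : E, fderiv ℝ (fun z => D.Γ z a b) (U.val x) c =
      fderiv ℝ D.Γ (U.val x) c a b := by
    intro a b c
    have h1 : DifferentiableAt ℝ (fun z => D.Γ z a) (U.val x) :=
      hΓd.clm_apply (differentiableAt_const a)
    rw [fderiv_clm_apply h1 (differentiableAt_const b),
      fderiv_clm_apply hΓd (differentiableAt_const a)]
    simp
  have hc : ∀ a b c : E, D.cov (nabla D.cov (constField U a) (constField U b)) x c =
      (fderiv ℝ D.Γ (U.val x) c a b + D.Γ (U.val x) c (D.Γ (U.val x) a b) : E) := by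
    intro a b c
    change fderiv ℝ (U.vec (nabla D.cov (constField U a) (constField U b))) (U.val x) c +
      D.Γ (U.val x) c (nabla D.cov (constField U a) (constField U b) x) = _
    rw [(hn a b).fderiv_eq, hfd, hnv]
  have h0 : D.cov (constField U w) x (mlieBracket 𝓘(ℝ, E) (constField U u) (constField U v) x)
      = (0 : E) := by
    rw [hb]
    exact map_zero _
  change (D.cov (nabla D.cov (constField U v) (constField U w)) x u : E) -
    (D.cov (nabla D.cov (constField U u) (constField U w)) x v : E) -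
    (D.cov (constField U w) x (mlieBracket 𝓘(ℝ, E) (constField U u) (constField U v) x) : E) = _
  rw [hc, hc, h0, MetricData.Rm]
  generalize fderiv ℝ D.Γ (U.val x) u v w = a1
  generalize fderiv ℝ D.Γ (U.val x) v u w = a2
  generalize D.Γ (U.val x) u (D.Γ (U.val x) v w) = a3
  generalize D.Γ (U.val x) v (D.Γ (U.val x) u w) = a4
  have : ∀ a b c d : E, a + c - (b + d) - (0 : E) = a - b + c - d := by intros; abel
  exact this _ _ _ _

end Pool.Agent.H821R2
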