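import Pool.Agent.H821R2.OneChart

/-!
Smooth metrics and their Levi-Civita connection on an open subset of a normed space.
-/

open Bundle Manifold ContDiff VectorField Filter Topology
open scoped Topology

set_option linter.unusedSectionVars false

noncomputable section

namespace Pool.Agent.H821R2

variable {E : Type*} [NormedAddCommGroup E] [NormedSpace ℝ E] [FiniteDimensional ℝ E]

variable (U : OpenDom E)

theorem OpenDom.symmL_eq (x y : U.Pt) (v : E) :
    (trivializationAt E (TangentSpace 𝓘(ℝ, E)) x).symmL ℝ y v = v := by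
  have hy : y ∈ (trivializationAt E (TangentSpace 𝓘(ℝ, E)) x).baseSet := by
    rw [TangentBundle.trivializationAt_baseSet, OpenDom.chartAt_eq, U.chart_source]
    trivial
  have h := (trivializationAt E (TangentSpace 𝓘(ℝ, E)) x).continuousLinearMapAt_symmL (R := ℝ) hy v
  have h2 : (trivializationAt E (TangentSpace 𝓘(ℝ, E)) x).continuousLinearMapAt ℝ y
      ((trivializationAt E (TangentSpace 𝓘(ℝ, E)) x).symmL ℝ y v) =
      ((trivializationAt E (TangentSpace 𝓘(ℝ, E)) x).symmL ℝ y v : E) := by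
    rw [Bundle.Trivialization.continuousLinearMapAt_apply,
      Bundle.Trivialization.coe_linearMapAt_of_mem _ hy]
    exact U.trivializationAt_snd x y _
  exact h2.symm.trans h

theorem OpenDom.mem_baseSet (x y : U.Pt) :
    y ∈ (trivializationAt E (TangentSpace 𝓘(ℝ, E)) x).baseSet := by
  rw [TangentBundle.trivializationAt_baseSet, OpenDom.chartAt_eq, U.chart_source]
  trivial

theorem OpenDom.symm_eq (x y : U.Pt) (v : E) :
    (trivializationAt E (TangentSpace 𝓘(ℝ, E)) x).symm y v = v := by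
  have hv := U.symmL_eq x y v
  rw [Bundle.Trivialization.symmL_apply] at hv
  · exact hv
  · exact U.mem_baseSet x y

theorem OpenDom.continuousLinearMapAt_eq (x y : U.Pt) (v : E) :
    (trivializationAt E (TangentSpace 𝓘(ℝ, E)) x).continuousLinearMapAt ℝ y v = v := by
  have hy : y ∈ (trivializationAt E (TangentSpace 𝓘(ℝ, E)) x).baseSet := by
    rw [TangentBundle.trivializationAt_baseSet, OpenDom.chartAt_eq, U.chart_source]
    trivial
  rw [Bundle.Trivialization.continuousLinearMapAt_apply,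
      Bundle.Trivialization.coe_linearMapAt_of_mem _ hy]
  exact U.trivializationAt_snd x y _

theorem OpenDom.contMDiff_bilin {n : ℕ∞ω} (G : E → E →L[ℝ] E →L[ℝ] ℝ)
    (hG : ContDiffOn ℝ n G U.carrier)
    (G' : Π x : U.Pt, TangentSpace 𝓘(ℝ, E) x →L[ℝ] TangentSpace 𝓘(ℝ, E) x →L[ℝ] ℝ)
    (hG' : ∀ x v w, G' x v w = G (U.val x) v w) :
    ContMDiff 𝓘(ℝ, E) (𝓘(ℝ, E).prod 𝓘(ℝ, E →L[ℝ] E →L[ℝ] ℝ)) n
      (fun b : U.Pt ↦ TotalSpace.mk' (E →L[ℝ] E →L[ℝ] ℝ)
        (E := fun x : U.Pt => TangentSpace 𝓘(ℝ, E) x →L[ℝ] TangentSpace 𝓘(ℝ, E) x →L[ℝ] ℝ)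
        b (G' b)) := by
  intro x
  rw [Bundle.contMDiffAt_section]
  have h : ContMDiffAt 𝓘(ℝ, E) 𝓘(ℝ, E →L[ℝ] E →L[ℝ] ℝ) n (fun b : U.Pt => G (U.val b)) x := by
    rw [OpenDom.contMDiffAt_iff]
    have h1 : U.lift (fun b : U.Pt => G (U.val b)) =ᶠ[𝓝 (U.val x)] G := by
      filter_upwards [U.mem_nhds x] with z hz
      simp only [OpenDom.lift]
      rw [U.val_chart_symm hz]
    exact (hG.contDiffAt (U.mem_nhds x)).congr_of_eventuallyEq h1
  convert! h using 2 with b
  rename_i y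
  ext v w
  have hy : y ∈ (trivializationAt E (TangentSpace 𝓘(ℝ, E)) x).baseSet := by
    rw [TangentBundle.trivializationAt_baseSet, OpenDom.chartAt_eq, U.chart_source]
    trivial
  rw [hom_trivializationAt_apply]
  change ContinuousLinearMap.inCoordinates E (TangentSpace 𝓘(ℝ, E)) (E →L[ℝ] ℝ)
    (fun x : U.Pt => TangentSpace 𝓘(ℝ, E) x →L[ℝ] (Bundle.Trivial U.Pt ℝ) x) x y x y (G' y) v w = _
  rw [inCoordinates_apply_eq₂ hy hy (Set.mem_univ _)]
  have hv := U.symm_eq x y v
  have hw := U.symm_eq x y w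
  have e1 : G' y ((trivializationAt E (TangentSpace 𝓘(ℝ, E)) x).symm y v)
      ((trivializationAt E (TangentSpace 𝓘(ℝ, E)) x).symm y w) = G (U.val y) v w := by
    rw [hG', hv, hw]
  rw [e1]
  simp

theorem OpenDom.contMDiff_end {n : ℕ∞ω} (G : E → E →L[ℝ] E)
    (hG : ContDiffOn ℝ n G U.carrier)
    (G' : Π x : U.Pt, TangentSpace 𝓘(ℝ, E) x →L[ℝ] TangentSpace 𝓘(ℝ, E) x)
    (hG' : ∀ x v, G' x v = G (U.val x) v) :
    ContMDiff 𝓘(ℝ, E) (𝓘(ℝ, E).prod 𝓘(ℝ, E →L[ℝ] E)) n
      (fun b : U.Pt ↦ TotalSpace.mk' (E →L[ℝ] E)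
        (E := fun x : U.Pt => TangentSpace 𝓘(ℝ, E) x →L[ℝ] TangentSpace 𝓘(ℝ, E) x)
        b (G' b)) := by
  intro x
  rw [Bundle.contMDiffAt_section]
  have h : ContMDiffAt 𝓘(ℝ, E) 𝓘(ℝ, E →L[ℝ] E) n (fun b : U.Pt => G (U.val b)) x := by
    rw [OpenDom.contMDiffAt_iff]
    have h1 : U.lift (fun b : U.Pt => G (U.val b)) =ᶠ[𝓝 (U.val x)] G := by
      filter_upwards [U.mem_nhds x] with z hz
      simp only [OpenDom.lift]
      rw [U.val_chart_symm hz]
    exact (hG.contDiffAt (U.mem_nhds x)).congr_of_eventuallyEq h1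
  convert! h using 2 with b
  rename_i y
  ext v
  rw [hom_trivializationAt_apply]
  change (trivializationAt E (TangentSpace 𝓘(ℝ, E)) x).continuousLinearMapAt ℝ y
    (G' y ((trivializationAt E (TangentSpace 𝓘(ℝ, E)) x).symmL ℝ y v)) = G (U.val y) v
  have e1 : G' y ((trivializationAt E (TangentSpace 𝓘(ℝ, E)) x).symmL ℝ y v) =
      G (U.val y) v := by
    rw [hG', U.symmL_eq x y v]
  rw [e1]
  exact U.continuousLinearMapAt_eq x y _


/-- Coordinate data of a Riemannian metric on an open set together with its Christoffel symbols. -/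
structure MetricData (U : OpenDom E) where
  G : E → E →L[ℝ] E →L[ℝ] ℝ
  Γ : E → E →L[ℝ] E →L[ℝ] E
  smoothG : ContDiffOn ℝ ∞ G U.carrier
  smoothΓ : ContDiffOn ℝ ∞ Γ U.carrier
  symm : ∀ z ∈ U.carrier, ∀ v w, G z v w = G z w v
  pos : ∀ z ∈ U.carrier, ∀ v, v ≠ 0 → 0 < G z v v
  torsion : ∀ z ∈ U.carrier, ∀ v w, Γ z v w = Γ z w v
  compat : ∀ z ∈ U.carrier, ∀ u v w,
    fderiv ℝ G z u v w = G z (Γ z u v) w + G z v (Γ z u w)

theorem exists_lower_bound (B : E →L[ℝ] E →L[ℝ] ℝ) (hB : ∀ v, v ≠ 0 → 0 < B v v) :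
    ∃ c : ℝ, 0 < c ∧ ∀ v, c * ‖v‖ ^ 2 ≤ B v v := by
  rcases subsingleton_or_nontrivial E with h | h
  · refine ⟨1, one_pos, fun v => ?_⟩
    have : v = 0 := Subsingleton.elim _ _
    simp [this]
  · have hc : IsCompact (Metric.sphere (0 : E) 1) := isCompact_sphere 0 1
    have hne : (Metric.sphere (0 : E) 1).Nonempty := NormedSpace.sphere_nonempty.2 zero_le_one
    have hcont : Continuous (fun v : E => B v v) := by fun_prop
    obtain ⟨v0, hv0, hmin⟩ := hc.exists_isMinOn hne hcont.continuousOn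
    have hv0' : v0 ≠ 0 := by
      intro h0
      rw [h0] at hv0
      simp at hv0
    refine ⟨B v0 v0, hB v0 hv0', fun v => ?_⟩
    by_cases hv : v = 0
    · simp [hv]
    · have hn : ‖v‖ ≠ 0 := norm_ne_zero_iff.2 hv
      have h1 : ‖v‖⁻¹ • v ∈ Metric.sphere (0 : E) 1 := by
        simp [norm_smul, hn]
      have h2 := hmin h1
      simp only [Set.mem_ofPred_eq, map_smul, smul_apply, smul_eq_mul] at h2
      have h3 : 0 < ‖v‖ ^ 2 := by positivity
      have h4 : B v v = (‖v‖⁻¹ * (‖v‖⁻¹ * B v v)) * ‖v‖ ^ 2 := by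
        field_simp
      rw [h4]
      exact mul_le_mul_of_nonneg_right h2 h3.le

/-- The Riemannian metric given by coordinate data. -/
def MetricData.metric {U : OpenDom E} (D : MetricData U) :
    ContMDiffRiemannianMetric 𝓘(ℝ, E) ∞ E (fun x : U.Pt => TangentSpace 𝓘(ℝ, E) x) where
  inner x := (D.G (U.val x) : E →L[ℝ] E →L[ℝ] ℝ)
  symm x v w := D.symm (U.val x) x.2 v w
  pos x v hv := D.pos (U.val x) x.2 v hv
  isVonNBounded x := by
    change Bornology.IsVonNBounded ℝ {v : E | D.G (U.val x) v v < 1}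
    obtain ⟨c, hc, hcv⟩ := exists_lower_bound (D.G (U.val x)) (D.pos (U.val x) x.2)
    apply (NormedSpace.isVonNBounded_closedBall ℝ E (c⁻¹ + 1)).subset
    intro v hv
    simp only [Set.mem_ofPred_eq] at hv
    have h1 := hcv v
    have h2 : ‖v‖ ^ 2 ≤ c⁻¹ := by
      rw [← one_div, le_div_iff₀ hc]
      linarith
    rw [Metric.mem_closedBall, dist_zero_right]
    nlinarith [norm_nonneg v, sq_nonneg (‖v‖ - 1), inv_pos.2 hc]
  contMDiff := U.contMDiff_bilin D.G D.smoothG _ (fun _ _ _ => rfl)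

theorem MetricData.metric_inner {U : OpenDom E} (D : MetricData U) (x : U.Pt) (v w : E) :
    D.metric.inner x v w = D.G (U.val x) v w := rfl

theorem OpenDom.lift_smul_vec {F : Type*} [NormedAddCommGroup F] [NormedSpace ℝ F]
    (g : U.Pt → ℝ) (σ : Π x : U.Pt, TangentSpace 𝓘(ℝ, E) x) :
    U.vec (g • σ) = fun z => U.lift g z • U.vec σ z := rfl

/-- The Levi-Civita connection given by coordinate data. -/
def MetricData.cov {U : OpenDom E} (D : MetricData U) :
    CovariantDerivative 𝓘(ℝ, E) E (TangentSpace 𝓘(ℝ, E) : U.Pt → Type _) where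
  toFun σ x := (fderiv ℝ (U.vec σ) (U.val x) + (D.Γ (U.val x)).flip (σ x) : E →L[ℝ] E)
  isCovariantDerivativeOnUniv :=
    { add := by
        intro σ σ' x hσ hσ' _
        rw [U.mdifferentiableAt_section] at hσ hσ'
        have e : U.vec (σ + σ') = U.vec σ + U.vec σ' := rfl
        change (fderiv ℝ (U.vec (σ + σ')) (U.val x) + (D.Γ (U.val x)).flip (σ x + σ' x) : E →L[ℝ] E)
          = (fderiv ℝ (U.vec σ) (U.val x) + (D.Γ (U.val x)).flip (σ x)) +
            (fderiv ℝ (U.vec σ') (U.val x) + (D.Γ (U.val x)).flip (σ' x))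
        rw [e, fderiv_add hσ hσ']
        have e2 : (D.Γ (U.val x)).flip (σ x + σ' x) =
            (D.Γ (U.val x)).flip (σ x) + (D.Γ (U.val x)).flip (σ' x) :=
          map_add (D.Γ (U.val x)).flip (σ x) (σ' x)
        rw [e2]
        abel
      leibniz := by
        intro σ g x hσ hg _
        have hg' := hg
        rw [U.mdifferentiableAt_section] at hσ
        rw [U.mdifferentiableAt_iff] at hg
        have e : U.vec (g • σ) = fun z => U.lift g z • U.vec σ z := rfl
        let dg : E →L[ℝ] ℝ := mvfderiv 𝓘(ℝ, E) g x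
        let sx : E := σ x
        have e2 : dg = fderiv ℝ (U.lift g) (U.val x) := by
          ext v
          exact U.mvfderiv_eq g x hg' v
        change (fderiv ℝ (U.vec (g • σ)) (U.val x) + (D.Γ (U.val x)).flip (g x • σ x) : E →L[ℝ] E)
          = g x • (fderiv ℝ (U.vec σ) (U.val x) + (D.Γ (U.val x)).flip (σ x)) +
            dg.smulRight sx
        rw [e, e2, fderiv_fun_smul hg hσ]
        have e3 : (D.Γ (U.val x)).flip (g x • σ x) = g x • (D.Γ (U.val x)).flip (σ x) :=
          map_smul (D.Γ (U.val x)).flip (g x) (σ x)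
        have e5 : U.vec σ (U.val x) = sx := U.vec_val σ x
        rw [e3, U.lift_val, e5]
        ext v
        simp
        abel }


end Pool.Agent.H821R2
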