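import Pool.Agent.H821R2.PinchAlg

/-!
Positivity of the curvature operator under pinching.
-/

open Module

set_option linter.unusedSectionVars false

noncomputable section

namespace Pool.Agent.H821R2

variable {V : Type*} [NormedAddCommGroup V] [InnerProductSpace ℝ V] [FiniteDimensional ℝ V]

theorem offdiag_bound {R : V →ₗ[ℝ] V →ₗ[ℝ] V →ₗ[ℝ] V} (h : IsCurvatureTensor R)
    {a b : ℝ} (ha : ∀ x y, a * area x y ≤ kap R x y) (hb : ∀ x y, kap R x y ≤ b * area x y)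
    {x y z w : V} (hx : inner ℝ x x = (1 : ℝ)) (hy : inner ℝ y y = (1 : ℝ))
    (hz : inner ℝ z z = (1 : ℝ)) (hw : inner ℝ w w = (1 : ℝ)) (hxy : inner ℝ x y = (0 : ℝ))
    (hxz : inner ℝ x z = (0 : ℝ)) (hxw : inner ℝ x w = (0 : ℝ)) (hyz : inner ℝ y z = (0 : ℝ))
    (hyw : inner ℝ y w = (0 : ℝ)) (hzw : inner ℝ z w = (0 : ℝ)) :
    |inner ℝ (R x y z) w| ≤ 2 / 3 * (b - a) := by
  have h1 := berger_inequality h ha hb hx hy hz hw hxy hxz hxw hyz hyw hzw
  have h2 := berger_inequality h ha hb hy hx hz hw (by rw [real_inner_comm]; exact hxy)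
    hyz hyw hxz hxw hzw
  rw [h.antisymm y x z, inner_neg_left] at h2
  rw [abs_le]
  constructor <;> linarith

theorem curvForm_pos {R : V →ₗ[ℝ] V →ₗ[ℝ] V →ₗ[ℝ] V} (h : IsCurvatureTensor R) {a b : ℝ}
    (hab' : a ≤ b)
    (hab : ∀ x y, inner ℝ x x = (1 : ℝ) → inner ℝ y y = (1 : ℝ) → inner ℝ x y = (0 : ℝ) →
      a ≤ kap R x y ∧ kap R x y ≤ b)
    (hpos : 0 < a - 2 / 3 * (b - a) * ((finrank ℝ V / 2 : ℕ) - 1 : ℝ))
    (η : ⋀[ℝ]^2 V) (hη : η ≠ 0) : 0 < curvForm R η η := by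
  obtain ⟨m, u, v, c, hm, huu, hvv, huv, hsum⟩ := exists_normal_form (finrank ℝ V) V rfl η
  have ha := fun x y => (kap_bounds h hab x y).1
  have hb := fun x y => (kap_bounds h hab x y).2
  have hexp : curvForm R η η = ∑ i, ∑ j, c i * c j * inner ℝ (R (u i) (v i) (v j)) (u j) := by
    rw [hsum]
    simp only [map_sum, map_smul, LinearMap.sum_apply, LinearMap.smul_apply, smul_eq_mul,
      curvForm_wedge h]
    simp only [Finset.mul_sum]
    rw [Finset.sum_comm]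
    apply Finset.sum_congr rfl
    intro i _
    apply Finset.sum_congr rfl
    intro j _
    ring
  set β : ℝ := 2 / 3 * (b - a) with hβ
  have hβ0 : 0 ≤ β := by rw [hβ]; linarith
  have hterm : ∀ i j, (if i = j then (a + β) * c i ^ 2 else 0) - β * (|c i| * |c j|) ≤
      c i * c j * inner ℝ (R (u i) (v i) (v j)) (u j) := by
    intro i j
    by_cases hij : i = j
    · subst hij
      rw [if_pos rfl]
      have h1 : inner ℝ (R (u i) (v i) (v i)) (u i) = kap R (u i) (v i) := rfl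
      have h2 := (hab (u i) (v i) (by simpa using huu i i) (by simpa using hvv i i) (huv i i)).1
      rw [h1]
      have h3 : |c i| * |c i| = c i ^ 2 := by rw [← sq, sq_abs]
      rw [h3]
      have h4 : 0 ≤ c i ^ 2 := sq_nonneg _
      nlinarith
    · rw [if_neg hij]
      have hji : ¬ j = i := fun h => hij h.symm
      have h1 : |inner ℝ (R (u i) (v i) (v j)) (u j)| ≤ β := by
        apply offdiag_bound h ha hb
        · simpa using huu i i
        · simpa using hvv i i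
        · simpa using hvv j j
        · simpa using huu j j
        · exact huv i i
        · exact huv i j
        · simpa [hij] using huu i j
        · simpa [hij] using hvv i j
        · rw [real_inner_comm]; exact huv j i
        · rw [real_inner_comm]; exact huv j j
      have h2 : |c i * c j * inner ℝ (R (u i) (v i) (v j)) (u j)| ≤ |c i| * |c j| * β := by
        rw [abs_mul, abs_mul]
        exact mul_le_mul_of_nonneg_left h1 (by positivity)
      have h3 := (abs_le.1 h2).1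
      linarith
  have hS : ∑ i, ∑ j, ((if i = j then (a + β) * c i ^ 2 else 0) - β * (|c i| * |c j|)) =
      (a + β) * ∑ i, c i ^ 2 - β * (∑ i, |c i|) ^ 2 := by
    simp only [Finset.sum_sub_distrib, Finset.sum_ite_eq, Finset.mem_univ, if_true]
    rw [Finset.mul_sum, sq, Finset.sum_mul_sum, Finset.mul_sum]
    simp only [Finset.mul_sum]
  have hle : (a + β) * ∑ i, c i ^ 2 - β * (∑ i, |c i|) ^ 2 ≤ curvForm R η η := by
    rw [hexp, ← hS]
    exact Finset.sum_le_sum fun i _ => Finset.sum_le_sum fun j _ => hterm i j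
  have hcs : (∑ i, |c i|) ^ 2 ≤ (m : ℝ) * ∑ i, c i ^ 2 := by
    have := sq_sum_le_card_mul_sum_sq (s := (Finset.univ : Finset (Fin m))) (f := fun i => |c i|)
    simpa using this
  have hSpos : 0 < ∑ i, c i ^ 2 := by
    by_contra hneg
    have h0 : ∑ i, c i ^ 2 = 0 := le_antisymm (not_lt.1 hneg)
      (Finset.sum_nonneg fun i _ => sq_nonneg _)
    rw [Finset.sum_eq_zero_iff_of_nonneg (fun i _ => sq_nonneg _)] at h0
    apply hη
    rw [hsum]
    apply Finset.sum_eq_zero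
    intro i hi
    have := h0 i hi
    have hc : c i = 0 := by simpa using this
    rw [hc, zero_smul]
  have hm' : (m : ℝ) ≤ (finrank ℝ V / 2 : ℕ) := by
    have : m ≤ finrank ℝ V / 2 := by omega
    exact_mod_cast this
  have h5 : β * (∑ i, |c i|) ^ 2 ≤ β * ((finrank ℝ V / 2 : ℕ) : ℝ) * ∑ i, c i ^ 2 := by
    have h6 : β * (∑ i, |c i|) ^ 2 ≤ β * ((m : ℝ) * ∑ i, c i ^ 2) :=
      mul_le_mul_of_nonneg_left hcs hβ0
    have h7 : β * ((m : ℝ) * ∑ i, c i ^ 2) ≤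
        β * (((finrank ℝ V / 2 : ℕ) : ℝ) * ∑ i, c i ^ 2) :=
      mul_le_mul_of_nonneg_left (mul_le_mul_of_nonneg_right hm' hSpos.le) hβ0
    linarith
  have h8 : 0 < (a - β * (((finrank ℝ V / 2 : ℕ) : ℝ) - 1)) * ∑ i, c i ^ 2 :=
    mul_pos hpos hSpos
  nlinarith

/-- Pinching above `2 (m - 1) / (2 m + 1)`, `m = ⌊d / 2⌋`, forces a positive curvature operator:
pointwise form. -/
theorem pointwise_pos {R : V →ₗ[ℝ] V →ₗ[ℝ] V →ₗ[ℝ] V} (h : IsCurvatureTensor R) {δ : ℝ}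
    (h4 : 4 ≤ finrank ℝ V) (hδ1 : δ ≤ 1)
    (hδ : 2 * ((finrank ℝ V / 2 : ℕ) - 1 : ℝ) / (2 * (finrank ℝ V / 2 : ℕ) + 1) < δ)
    (hK : ∀ x y : V, inner ℝ x x = (1 : ℝ) → inner ℝ y y = (1 : ℝ) → inner ℝ x y = (0 : ℝ) →
      0 < kap R x y)
    (hp : ∀ x y x' y' : V, inner ℝ x x = (1 : ℝ) → inner ℝ y y = (1 : ℝ) →
      inner ℝ x y = (0 : ℝ) → inner ℝ x' x' = (1 : ℝ) → inner ℝ y' y' = (1 : ℝ) →
      inner ℝ x' y' = (0 : ℝ) → δ * kap R x' y' ≤ kap R x y)
    (η : ⋀[ℝ]^2 V) (hη : η ≠ 0) : 0 < curvForm R η η := by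
  set m : ℕ := finrank ℝ V / 2 with hm
  have hm2 : (2 : ℝ) ≤ m := by
    have : 2 ≤ m := by omega
    exact_mod_cast this
  have hδ' : 2 * ((m : ℝ) - 1) < δ * (2 * m + 1) := by
    rwa [div_lt_iff₀ (by linarith)] at hδ
  have hδ0 : 0 < δ := by
    by_contra hneg
    have : δ * (2 * (m : ℝ) + 1) ≤ 0 := mul_nonpos_of_nonpos_of_nonneg (not_lt.1 hneg) (by linarith)
    linarith
  obtain ⟨x0, y0, hx0, hy0, hxy0⟩ : ∃ x0 y0 : V, inner ℝ x0 x0 = (1 : ℝ) ∧
      inner ℝ y0 y0 = (1 : ℝ) ∧ inner ℝ x0 y0 = (0 : ℝ) := by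
    have b := stdOrthonormalBasis ℝ V
    refine ⟨b ⟨0, by omega⟩, b ⟨1, by omega⟩, ?_, ?_, ?_⟩
    · rw [real_inner_self_eq_norm_sq, b.orthonormal.1]; norm_num
    · rw [real_inner_self_eq_norm_sq, b.orthonormal.1]; norm_num
    · exact b.orthonormal.2 (by simp)
  let S : Set ℝ := {t | ∃ x y : V, inner ℝ x x = (1 : ℝ) ∧ inner ℝ y y = (1 : ℝ) ∧
    inner ℝ x y = (0 : ℝ) ∧ kap R x y = t}
  have hSne : S.Nonempty := ⟨_, x0, y0, hx0, hy0, hxy0, rfl⟩
  have hSbdd : BddAbove S := by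
    refine ⟨kap R x0 y0 / δ, ?_⟩
    rintro t ⟨x, y, hx, hy, hxy, rfl⟩
    rw [le_div_iff₀ hδ0, mul_comm]
    exact hp x0 y0 x y hx0 hy0 hxy0 hx hy hxy
  set Δ := sSup S with hΔ
  have hle : ∀ x y : V, inner ℝ x x = (1 : ℝ) → inner ℝ y y = (1 : ℝ) → inner ℝ x y = (0 : ℝ) →
      kap R x y ≤ Δ := fun x y hx hy hxy => le_csSup hSbdd ⟨x, y, hx, hy, hxy, rfl⟩
  have hge : ∀ x y : V, inner ℝ x x = (1 : ℝ) → inner ℝ y y = (1 : ℝ) → inner ℝ x y = (0 : ℝ) →
      δ * Δ ≤ kap R x y := by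
    intro x y hx hy hxy
    have h1 : Δ ≤ kap R x y / δ := by
      apply csSup_le hSne
      rintro t ⟨x', y', hx', hy', hxy', rfl⟩
      rw [le_div_iff₀ hδ0, mul_comm]
      exact hp x y x' y' hx hy hxy hx' hy' hxy'
    rw [le_div_iff₀ hδ0, mul_comm] at h1
    exact h1
  have hΔ0 : 0 < Δ := lt_of_lt_of_le (hK x0 y0 hx0 hy0 hxy0) (hle x0 y0 hx0 hy0 hxy0)
  refine curvForm_pos h (a := δ * Δ) (b := Δ) (by nlinarith)
    (fun x y hx hy hxy => ⟨hge x y hx hy hxy, hle x y hx hy hxy⟩) ?_ η hη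
  rw [← hm]
  have h9 : δ * Δ - 2 / 3 * (Δ - δ * Δ) * ((m : ℝ) - 1) =
      Δ * (δ * (2 * m + 1) - 2 * (m - 1)) / 3 := by ring
  rw [h9]
  have : 0 < δ * (2 * m + 1) - 2 * ((m : ℝ) - 1) := by linarith
  positivity

end Pool.Agent.H821R2
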