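import Pool.Agent.H821R2.PinchPos
import Pool.Agent.H821R2.Defs

/-!
Pinching above the constant forces positivity of the curvature operator on manifolds.
-/

open Bundle Manifold ContDiff VectorField Module
open scoped Topology

set_option linter.unusedSectionVars false

noncomputable section

namespace Pool.Agent.H821R2

variable {E : Type*} [NormedAddCommGroup E] [NormedSpace ℝ E] [FiniteDimensional ℝ E]
  {H : Type*} [TopologicalSpace H] {I : ModelWithCorners ℝ E H}
  {M : Type*} [TopologicalSpace M] [ChartedSpace H M] [IsManifold I ∞ M]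
  [T2Space M] [SigmaCompactSpace M]

theorem forces_of_gt [Nontrivial E]
    (g : ContMDiffRiemannianMetric I ∞ E (fun x : M => TangentSpace I x))
    (cov : CovariantDerivative I E (TangentSpace I : M → Type _))
    (R : CurvField I M) (hcov : IsLeviCivita g cov) (hR : IsRiemannTensor cov R) {δ : ℝ}
    (hδ1 : δ ≤ 1) (h4 : 4 ≤ finrank ℝ E)
    (hδ : 2 * ((finrank ℝ E / 2 : ℕ) - 1 : ℝ) / (2 * (finrank ℝ E / 2 : ℕ) + 1) < δ)
    (hp : PointwisePinched g R δ) : HasPositiveCurvatureOperator g R := by
  let _ : RiemannianBundle (fun x : M => TangentSpace I x) := ⟨g.toRiemannianMetric⟩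
  have hinner : ∀ (x : M) (v w : TangentSpace I x), inner ℝ v w = g.inner x v w :=
    fun x v w => rfl
  have hB : IsLeviCivitaB cov := ⟨hcov.smooth, hcov.metric, hcov.torsionFree⟩
  intro x
  have hC : IsCurvatureTensor (R x) := isCurvatureTensor hB hR x
  have hfin : FiniteDimensional ℝ (TangentSpace I x) := inferInstanceAs (FiniteDimensional ℝ E)
  refine ⟨curvForm (R x), ?_, ?_⟩
  · intro a b c d
    exact curvForm_wedge hC a b c d
  · intro η hη
    refine pointwise_pos hC (δ := δ) h4 hδ1 hδ ?_ ?_ η hη
    · intro u v hu hv huv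
      exact hp.1 x u v ⟨hu, hv, huv⟩
    · intro u v u' v' hu hv huv hu' hv' huv'
      exact hp.2 x u v u' v' ⟨hu, hv, huv⟩ ⟨hu', hv', huv'⟩

end Pool.Agent.H821R2
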